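import Mathlib

/-!
# Project KMN: the cohomology ring of an abelian surface

`Coh F = Λ^* F^4 = H^*(A, F)` for an abelian surface `A`, with basis `e_I`, `I ⊆ {0, 1, 2, 3}`,
exterior product `wedge`, integral `integral` (coefficient of the top class), and the dual basis
`dual I` with `∫ dual I ∧ e_J = δ_{IJ}`.
-/

namespace Pool.Agent.KMN

open Finset

variable {F : Type*} [Field F]

/-- The exterior algebra on four generators: functions on the subsets of `{0, 1, 2, 3}`. -/
abbrev Coh (F : Type*) := Finset (Fin 4) → F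

/-- The sign `ε(I, J)` with `e_I ∧ e_J = ε(I, J) e_{I ∪ J}` (`0` if `I` and `J` meet). -/
def eps (I J : Finset (Fin 4)) : ℤ :=
  if Disjoint I J then (-1) ^ ((I ×ˢ J).filter fun p => p.2 < p.1).card else 0

/-- The basis `e_I`. -/
def ee (I : Finset (Fin 4)) : Coh F := Pi.single I 1

/-- The exterior product (cup product). -/
def wedge (a b : Coh F) : Coh F :=
  fun K => ∑ I ∈ K.powerset, (eps I (K \ I) : F) * a I * b (K \ I)

/-- The integral over the surface: the coefficient of the top class. -/
def integral (a : Coh F) : F := a univ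

/-- The dual basis: `∫ dual I ∧ e_J = δ_{IJ}`. -/
def dual (I : Finset (Fin 4)) : Coh F := (eps Iᶜ I : F) • ee Iᶜ

theorem eps_compl_sq (I : Finset (Fin 4)) : eps Iᶜ I * eps Iᶜ I = 1 := by
  revert I; decide

theorem eps_compl_sq' (I : Finset (Fin 4)) : eps I Iᶜ * eps I Iᶜ = 1 := by
  revert I; decide

theorem eps_empty_left (I : Finset (Fin 4)) : eps ∅ I = 1 := by
  revert I; decide

/-- `∫ e_I ∧ γ = ε(I, Iᶜ) γ_{Iᶜ}`. -/
theorem integral_ee_wedge (I : Finset (Fin 4)) (γ : Coh F) :
    integral (wedge (ee I) γ) = (eps I Iᶜ : F) * γ Iᶜ := by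
  unfold integral wedge ee
  rw [Finset.sum_eq_single I]
  · simp [Finset.compl_eq_univ_sdiff]
  · intro J _ hJ
    simp [Pi.single_apply, hJ]
  · intro h; simp at h

/-- `∫ e_J ∧ e_I` is `ε(J, I)` if `I` is the complement of `J`, and `0` otherwise. -/
theorem integral_ee_ee (J I : Finset (Fin 4)) :
    integral (wedge (ee J) (ee I) : Coh F) = if I = Jᶜ then (eps J Jᶜ : F) else 0 := by
  rw [integral_ee_wedge]
  by_cases h : I = Jᶜ
  · simp [ee, h]
  · rw [if_neg h]
    have : ee I Jᶜ = (0 : F) := by simp [ee, Pi.single_apply, Ne.symm h]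
    rw [this, mul_zero]

theorem integral_smul_wedge (c : F) (a b : Coh F) :
    integral (wedge (c • a) b) = c * integral (wedge a b) := by
  simp only [integral, wedge, Pi.smul_apply, smul_eq_mul, Finset.mul_sum]
  refine Finset.sum_congr rfl fun I _ => by ring

/-- `∫ dual I ∧ γ = γ_I`. -/
theorem integral_dual_wedge (I : Finset (Fin 4)) (γ : Coh F) :
    integral (wedge (dual I) γ) = γ I := by
  unfold dual
  rw [integral_smul_wedge, integral_ee_wedge, compl_compl, ← mul_assoc]
  have h : ((eps Iᶜ I : F)) * (eps Iᶜ I : F) = 1 := by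
    rw [← Int.cast_mul, eps_compl_sq, Int.cast_one]
  rw [h, one_mul]

theorem sum_dual (γ : Coh F) :
    γ = ∑ I, integral (wedge (dual I) γ) • ee I := by
  funext K
  simp only [integral_dual_wedge, Finset.sum_apply, Pi.smul_apply, ee, smul_eq_mul]
  rw [Finset.sum_eq_single K]
  · simp
  · intro J _ hJ; simp [Ne.symm hJ]
  · intro h; simp at h

theorem dual_univ : dual (F := F) univ = ee ∅ := by
  unfold dual
  rw [compl_univ, eps_empty_left]; simp

theorem integral_ee (I : Finset (Fin 4)) : integral (ee I : Coh F) = if I = univ then 1 else 0 := by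
  unfold integral ee
  by_cases h : I = univ
  · simp [h]
  · simp [h, Ne.symm h]

theorem ee_empty_wedge (γ : Coh F) : wedge (ee ∅) γ = γ := by
  funext K
  unfold wedge
  rw [Finset.sum_eq_single ∅]
  · simp [eps_empty_left, ee]
  · intro J _ hJ; simp [ee, hJ]
  · intro h; simp at h

end Pool.Agent.KMN
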