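import Pool.Agent.KMN.Mot

/-!
# KMN-CupMem: `fromB` is closed under the cup product

The cup product is bilinear, and the cup product of `H f a` and `H f' b` is the image of `a ⊗ b`
under `(f ⊗ₘ f') ≫ mul`.
-/

namespace Pool.Agent.KMN

open CategoryTheory MonoidalCategory Limits

universe v u w

private theorem cup_map {C : Type u} [Category.{v} C] [MonoidalCategory C] {F : Type w} [Field F]
    (H : C ⥤ ModuleCat.{w} F) [H.Monoidal] {X M M' : C} (mul : X ⊗ X ⟶ X)
    (f : M ⟶ X) (f' : M' ⟶ X) (a : H.obj M) (b : H.obj M') :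
    cup H mul ((H.map f).hom a) ((H.map f').hom b) =
      (H.map ((f ⊗ₘ f') ≫ mul)).hom ((Functor.LaxMonoidal.μ H M M').hom (a ⊗ₜ[F] b)) := by
  unfold cup
  have h := Functor.LaxMonoidal.μ_natural H f f'
  have h2 := congrArg (fun g => g.hom (a ⊗ₜ[F] b)) h
  rw [H.map_comp]
  exact congrArg (H.map mul).hom h2

theorem cup_mem {C : Type u} [Category.{v} C] [Preadditive C] [HasBinaryBiproducts C]
    [MonoidalCategory C] [RightRigidCategory C] {F : Type w} [Field F]
    (H : C ⥤ ModuleCat.{w} F) [H.Monoidal] (B : C) {X : C} (mul : X ⊗ X ⟶ X)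
    (x y : H.obj X) (hx : x ∈ fromB H B X) (hy : y ∈ fromB H B X) :
    cup H mul x y ∈ fromB H B X := by
  let ψ : H.obj X →ₗ[F] H.obj X →ₗ[F] H.obj X :=
    (TensorProduct.mk F (H.obj X) (H.obj X)).compr₂
      ((H.map mul).hom ∘ₗ (Functor.LaxMonoidal.μ H X X).hom)
  have hψ : ∀ u v, ψ u v = cup H mul u v := fun u v => rfl
  have h1 : ∀ (M : C) (_ : Thick B M) (f : M ⟶ X) (a : H.obj M),
      fromB H B X ≤ (fromB H B X).comap (ψ ((H.map f).hom a)) := by
    intro M hM f a
    refine iSup_le fun M' => iSup_le fun hM' => iSup_le fun f' => ?_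
    rintro _ ⟨b, rfl⟩
    rw [Submodule.mem_comap, hψ, cup_map]
    have h2 : LinearMap.range (H.map ((f ⊗ₘ f') ≫ mul)).hom ≤ fromB H B X :=
      le_iSup_of_le (M ⊗ M') (le_iSup_of_le (Thick.tensor M M' hM hM')
        (le_iSup (fun g : M ⊗ M' ⟶ X => LinearMap.range (H.map g).hom) ((f ⊗ₘ f') ≫ mul)))
    exact h2 ⟨_, rfl⟩
  have h2 : fromB H B X ≤ (fromB H B X).comap (ψ.flip y) := by
    refine iSup_le fun M => iSup_le fun hM => iSup_le fun f => ?_
    rintro _ ⟨a, rfl⟩
    exact h1 M hM f a hy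
  exact h2 hx

end Pool.Agent.KMN
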