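import Pool.Agent.KMN.Mot

/-!
# KMN-DualInj: duals of surjections are injections

Plan. For `x' ∈ H(Xᘁ)`, `x ∈ H(X)` put `⟨x', x⟩ = H(ε_X) (μ (x' ⊗ x)) ∈ H(𝟙)`.
`rightAdjointMate_comp_evaluation : (fᘁ ▷ M) ≫ ε_M = (Xᘁ ◁ f) ≫ ε_X` and naturality of `μ` give
`⟨H(fᘁ) x', m⟩ = ⟨x', H(f) m⟩`. If `H(fᘁ) x' = 0`, surjectivity of `H(f)` gives `⟨x', x⟩ = 0` for all
`x`. The zigzag identity `ExactPairing.coevaluation_evaluation`
(`Xᘁ ◁ η ≫ α⁻¹ ≫ ε ▷ Xᘁ = ρ ≫ λ⁻¹`) transported by `H` (μ, its inverse, `Functor.Monoidal`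
coherence: `Functor.Monoidal.map_whiskerLeft`, `map_associator_inv`, ... ) shows that `x'` is a sum
of terms `⟨x', a_i⟩ b_i`, so `x' = 0`. Alternatively: `H` sends the exact pairing `(X, Xᘁ)` to an
exact pairing (`CategoryTheory/Monoidal/Rigid/Functor.lean` may have it) and argue in `ModuleCat`.
`whisker_injective`: `H(g ▷ T)` is `H(g) ⊗ id` up to isomorphisms (`Functor.Monoidal.map_whiskerRight`
or `μ_natural_left`), and `Module.Flat.rTensor_preserves_injective_linearMap`.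
-/

namespace Pool.Agent.KMN

open CategoryTheory MonoidalCategory Limits

universe v u w v' u'

private theorem hz1 {C : Type u} [Category.{v} C] [MonoidalCategory C] {D : Type u'} [Category.{v'} D]
    [MonoidalCategory D] (H : C ⥤ D) [H.Monoidal] (X Y : C) [ExactPairing X Y] :
    H.obj Y ◁ (Functor.LaxMonoidal.ε H ≫ H.map (η_ X Y) ≫ Functor.OplaxMonoidal.δ H X Y) ≫
      (α_ (H.obj Y) (H.obj X) (H.obj Y)).inv ≫
      (Functor.LaxMonoidal.μ H Y X ≫ H.map (ε_ X Y) ≫ Functor.OplaxMonoidal.η H) ▷ H.obj Y =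
      (ρ_ (H.obj Y)).hom ≫ (λ_ (H.obj Y)).inv := by
  have h := congrArg H.map (ExactPairing.coevaluation_evaluation X Y)
  rw [H.map_comp, H.map_comp, H.map_comp, Functor.Monoidal.map_whiskerLeft, Functor.Monoidal.map_whiskerRight,
    Functor.Monoidal.map_associator_inv, Functor.Monoidal.map_rightUnitor,
    Functor.Monoidal.map_leftUnitor_inv] at h
  simp only [Category.assoc, Functor.Monoidal.μ_δ_assoc] at h
  have h2 := congrArg (fun f => (H.obj Y ◁ Functor.LaxMonoidal.ε H ≫ Functor.LaxMonoidal.μ H Y (𝟙_ C)) ≫ f ≫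
    (Functor.OplaxMonoidal.δ H (𝟙_ C) Y ≫ Functor.OplaxMonoidal.η H ▷ H.obj Y)) h
  simp only [Category.assoc, Functor.Monoidal.μ_δ_assoc, Functor.Monoidal.whiskerLeft_ε_η_assoc,
    Functor.Monoidal.whiskerRight_ε_η, Category.comp_id] at h2
  simp only [MonoidalCategory.whiskerLeft_comp, comp_whiskerRight, Category.assoc]
  exact h2

private theorem hz2 {C : Type u} [Category.{v} C] [MonoidalCategory C] {D : Type u'} [Category.{v'} D]
    [MonoidalCategory D] (H : C ⥤ D) [H.Monoidal] (X Y : C) [ExactPairing X Y] :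
    (Functor.LaxMonoidal.ε H ≫ H.map (η_ X Y) ≫ Functor.OplaxMonoidal.δ H X Y) ▷ H.obj X ≫
      (α_ (H.obj X) (H.obj Y) (H.obj X)).hom ≫
      H.obj X ◁ (Functor.LaxMonoidal.μ H Y X ≫ H.map (ε_ X Y) ≫ Functor.OplaxMonoidal.η H) =
      (λ_ (H.obj X)).hom ≫ (ρ_ (H.obj X)).inv := by
  have h := congrArg H.map (ExactPairing.evaluation_coevaluation X Y)
  rw [H.map_comp, H.map_comp, H.map_comp, Functor.Monoidal.map_whiskerLeft, Functor.Monoidal.map_whiskerRight,
    Functor.Monoidal.map_associator, Functor.Monoidal.map_leftUnitor,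
    Functor.Monoidal.map_rightUnitor_inv] at h
  simp only [Category.assoc, Functor.Monoidal.μ_δ_assoc] at h
  have h2 := congrArg (fun f => (Functor.LaxMonoidal.ε H ▷ H.obj X ≫ Functor.LaxMonoidal.μ H (𝟙_ C) X) ≫ f ≫
    (Functor.OplaxMonoidal.δ H X (𝟙_ C) ≫ H.obj X ◁ Functor.OplaxMonoidal.η H)) h
  simp only [Category.assoc, Functor.Monoidal.μ_δ_assoc, Functor.Monoidal.whiskerRight_ε_η_assoc,
    Functor.Monoidal.whiskerLeft_ε_η, Category.comp_id] at h2
  simp only [MonoidalCategory.whiskerLeft_comp, comp_whiskerRight, Category.assoc]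
  exact h2

@[reducible] private noncomputable def hP {C : Type u} [Category.{v} C] [MonoidalCategory C] {D : Type u'}
    [Category.{v'} D] [MonoidalCategory D] (H : C ⥤ D) [H.Monoidal] (X : C) [HasRightDual X] :
    HasRightDual (H.obj X) where
  rightDual := H.obj Xᘁ
  exact :=
    { coevaluation' := Functor.LaxMonoidal.ε H ≫ H.map (η_ X Xᘁ) ≫ Functor.OplaxMonoidal.δ H X Xᘁ
      evaluation' := Functor.LaxMonoidal.μ H Xᘁ X ≫ H.map (ε_ X Xᘁ) ≫ Functor.OplaxMonoidal.η H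
      coevaluation_evaluation' := hz1 H X Xᘁ
      evaluation_coevaluation' := hz2 H X Xᘁ }

private theorem hmate {C : Type u} [Category.{v} C] [MonoidalCategory C] {D : Type u'}
    [Category.{v'} D] [MonoidalCategory D] (H : C ⥤ D) [H.Monoidal] {M X : C} [HasRightDual X] [HasRightDual M]
    (f : M ⟶ X) :
    H.map (fᘁ) = @rightAdjointMate D _ _ (H.obj M) (H.obj X) (hP H M) (hP H X) (H.map f) := by
  change H.map ((ρ_ _).inv ≫ _ ◁ η_ _ _ ≫ _ ◁ f ▷ _ ≫ (α_ _ _ _).inv ≫ ε_ _ _ ▷ _ ≫ (λ_ _).hom) =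
    (ρ_ (H.obj Xᘁ)).inv ≫ H.obj Xᘁ ◁ (Functor.LaxMonoidal.ε H ≫ H.map (η_ M Mᘁ) ≫
      Functor.OplaxMonoidal.δ H M Mᘁ) ≫ H.obj Xᘁ ◁ (H.map f ▷ H.obj Mᘁ) ≫ (α_ (H.obj Xᘁ) (H.obj X) (H.obj Mᘁ)).inv ≫
      (Functor.LaxMonoidal.μ H Xᘁ X ≫ H.map (ε_ X Xᘁ) ≫ Functor.OplaxMonoidal.η H) ▷ H.obj Mᘁ ≫
      (λ_ (H.obj Mᘁ)).hom
  simp only [H.map_comp, Functor.Monoidal.map_whiskerLeft, Functor.Monoidal.map_whiskerRight,
    Functor.Monoidal.map_associator_inv, Functor.Monoidal.map_leftUnitor,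
    Functor.Monoidal.map_rightUnitor_inv, Category.assoc, Functor.Monoidal.μ_δ_assoc,
    MonoidalCategory.whiskerLeft_comp, comp_whiskerRight, Functor.Monoidal.whiskerLeft_μ_δ_assoc]

theorem dual_injective {C : Type u} [Category.{v} C]
    [MonoidalCategory C] [RightRigidCategory C] {F : Type w} [Field F]
    (H : C ⥤ ModuleCat.{w} F) [H.Monoidal] {M X : C} (f : M ⟶ X)
    (hf : Function.Surjective (H.map f).hom) : Function.Injective (H.map (fᘁ)).hom := by
  obtain ⟨s, hs⟩ := (H.map f).hom.exists_rightInverse_of_surjective (LinearMap.range_eq_top.2 hf)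
  have h1 : ModuleCat.ofHom s ≫ H.map f = 𝟙 (H.obj X) := by
    ext x
    exact LinearMap.congr_fun hs x
  rw [hmate]
  let _ := hP H M
  let _ := hP H X
  have h2 : rightAdjointMate (H.map f) ≫ rightAdjointMate (ModuleCat.ofHom s) = 𝟙 ((H.obj X)ᘁ : ModuleCat.{w} F) := by
    rw [← comp_rightAdjointMate, h1, rightAdjointMate_id]
  intro a b hab
  have h3 := congrArg (fun g => g.hom a) h2
  have h4 := congrArg (fun g => g.hom b) h2
  simp only [ModuleCat.hom_comp, LinearMap.comp_apply] at h3 h4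
  have h5 := h3.symm.trans ((congrArg _ hab).trans h4)
  exact h5

theorem whisker_injective {C : Type u} [Category.{v} C]
    [MonoidalCategory C] {F : Type w} [Field F]
    (H : C ⥤ ModuleCat.{w} F) [H.Monoidal] {X Y : C} (g : X ⟶ Y) (T : C)
    (hg : Function.Injective (H.map g).hom) : Function.Injective (H.map (g ▷ T)).hom := by
  rw [Functor.Monoidal.map_whiskerRight]
  obtain ⟨r, hr⟩ := (H.map g).hom.exists_leftInverse_of_injective (LinearMap.ker_eq_bot.2 hg)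
  have h1 : H.map g ≫ ModuleCat.ofHom r = 𝟙 (H.obj X) := by
    ext x
    exact LinearMap.congr_fun hr x
  have h2 : (Functor.OplaxMonoidal.δ H X T ≫ H.map g ▷ H.obj T ≫ Functor.LaxMonoidal.μ H Y T) ≫
      (Functor.OplaxMonoidal.δ H Y T ≫ ModuleCat.ofHom r ▷ H.obj T ≫ Functor.LaxMonoidal.μ H X T) =
      𝟙 (H.obj (X ⊗ T)) := by
    simp only [Category.assoc, Functor.Monoidal.μ_δ_assoc]
    rw [← comp_whiskerRight_assoc, h1]
    simp
  generalize (Functor.OplaxMonoidal.δ H X T ≫ H.map g ▷ H.obj T ≫ Functor.LaxMonoidal.μ H Y T) = P at h2 ⊢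
  generalize (Functor.OplaxMonoidal.δ H Y T ≫ ModuleCat.ofHom r ▷ H.obj T ≫ Functor.LaxMonoidal.μ H X T) = Q at h2
  intro a b hab
  have h3 : Q.hom (P.hom a) = a := congrArg (fun g => g.hom a) h2
  have h4 : Q.hom (P.hom b) = b := congrArg (fun g => g.hom b) h2
  rw [← h3, hab, h4]

end Pool.Agent.KMN
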