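import Pool.Agent.KMN.Fock

/-!
# Project KMN: the filtration by size (definitions)

`ones L` is the number of factors `q_{-d}(1)` of the monomial `word d L`, its size is
`weight - ones`; `U F d w s` is the span of the monomials (with positive indices) of weight `w` and
size at most `s` (`w`, `s` integers: if one of them is negative it is `0`).
-/

namespace Pool.Agent.KMN

variable {F : Type*} [Field F]

/-- The number of entries `(1, ∅)`. -/
def ones (L : List Vr) : ℕ := L.count (1, ∅)

/-- The size. -/
def size (L : List Vr) : ℤ := (weight L : ℤ) - (ones L : ℤ)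

/-- The span of the monomials of weight `w` and size `≤ s`. -/
noncomputable def U (F : Type*) [Field F] (d : ℕ) (w s : ℤ) : Submodule F (Fock F) :=
  Submodule.span F {v | ∃ L : List Vr, (∀ p ∈ L, 0 < p.1) ∧ (weight L : ℤ) = w ∧ size L ≤ s ∧
    v = word d L}

theorem word_nil (d : ℕ) : (word d [] : Fock F) = vac := rfl

theorem word_cons (d : ℕ) (p : Vr) (L : List Vr) :
    (word d (p :: L) : Fock F) = (cr (d * p.1) p.2 : Module.End F (Fock F)) (word d L) := by
  simp [word]

theorem weight_cons (p : Vr) (L : List Vr) : weight (p :: L) = p.1 + weight L := by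
  simp [weight]

theorem U_mono (d : ℕ) (w : ℤ) {s s' : ℤ} (h : s ≤ s') : U F d w s ≤ U F d w s' :=
  Submodule.span_mono fun _ ⟨L, h1, h2, h3, h4⟩ => ⟨L, h1, h2, h3.trans h, h4⟩

theorem word_mem_U (d : ℕ) (L : List Vr) (h : ∀ p ∈ L, 0 < p.1) {w s : ℤ}
    (hw : (weight L : ℤ) = w) (hs : size L ≤ s) : (word d L : Fock F) ∈ U F d w s :=
  Submodule.subset_span ⟨L, h, hw, hs, rfl⟩

end Pool.Agent.KMN
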