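import Pool.Agent.KMN.Filt

/-!
# KMN-FiltA: creation operators and the filtration
-/

namespace Pool.Agent.KMN

variable {F : Type*} [Field F]

private theorem fa_ones_cons (p : Vr) (L : List Vr) :
    ones (p :: L) = ones L + if p = (1, ∅) then 1 else 0 := by
  unfold ones
  rw [List.count_cons]
  congr 1
  by_cases h : p = (1, ∅)
  · rw [if_pos h, if_pos (beq_iff_eq.2 h)]
  · rw [if_neg h, if_neg fun h' => h (beq_iff_eq.1 h')]

private theorem fa_ones_le (L : List Vr) : ones L ≤ weight L := by
  induction L with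
  | nil => exact le_refl 0
  | cons p L ih =>
    rw [fa_ones_cons, weight_cons]
    by_cases h : p = (1, ∅)
    · rw [if_pos h, h]
      show ones L + 1 ≤ 1 + weight L
      omega
    · rw [if_neg h]
      omega

theorem size_cons_le (p : Vr) (L : List Vr) : size (p :: L) ≤ size L + p.1 := by
  unfold size
  rw [fa_ones_cons, weight_cons]
  push_cast
  by_cases h : p = (1, ∅)
  · rw [if_pos h]
    omega
  · rw [if_neg h]
    omega

theorem size_cons_of_ne (p : Vr) (hp : p ≠ (1, ∅)) (L : List Vr) :
    size (p :: L) = size L + p.1 := by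
  unfold size
  rw [fa_ones_cons, weight_cons, if_neg hp]
  push_cast
  ring

theorem size_cons_one (L : List Vr) : size ((1, ∅) :: L) = size L := by
  unfold size
  rw [fa_ones_cons, weight_cons, if_pos rfl]
  push_cast
  ring

theorem size_nonneg (L : List Vr) (h : ∀ p ∈ L, 0 < p.1) : 0 ≤ size L := by
  have := fa_ones_le L
  unfold size
  omega

theorem cr_mem (d i : ℕ) (hi : 0 < i) (I : Finset (Fin 4)) (w s : ℤ) (v : Fock F)
    (hv : v ∈ U F d w s) :
    (cr (d * i) I : Module.End F (Fock F)) v ∈ U F d (w + i) (s + i) := by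
  have h1 : U F d w s ≤ (U F d (w + i) (s + i)).comap (cr (d * i) I : Module.End F (Fock F)) := by
    refine Submodule.span_le.2 ?_
    rintro _ ⟨L, hL, hw, hs, rfl⟩
    show (cr (d * i) I : Module.End F (Fock F)) (word d L) ∈ U F d (w + i) (s + i)
    rw [← word_cons d (i, I) L]
    refine word_mem_U d _ ?_ ?_ ?_
    · intro p hp
      rcases List.mem_cons.1 hp with rfl | hp
      · exact hi
      · exact hL p hp
    · rw [weight_cons]
      push_cast
      rw [hw]
      ring
    · refine (size_cons_le (i, I) L).trans ?_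
      show size L + (i : ℤ) ≤ s + i
      omega
  exact h1 hv

theorem cr_one_mem (d : ℕ) (w s : ℤ) (v : Fock F) (hv : v ∈ U F d w s) :
    (cr (d * 1) ∅ : Module.End F (Fock F)) v ∈ U F d (w + 1) s := by
  have h1 : U F d w s ≤ (U F d (w + 1) s).comap (cr (d * 1) ∅ : Module.End F (Fock F)) := by
    refine Submodule.span_le.2 ?_
    rintro _ ⟨L, hL, hw, hs, rfl⟩
    show (cr (d * 1) ∅ : Module.End F (Fock F)) (word d L) ∈ U F d (w + 1) s
    rw [← word_cons d (1, ∅) L]
    refine word_mem_U d _ ?_ ?_ ?_
    · intro p hp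
      rcases List.mem_cons.1 hp with rfl | hp
      · exact Nat.one_pos
      · exact hL p hp
    · rw [weight_cons]
      push_cast
      rw [hw]
      ring
    · rw [size_cons_one]
      exact hs
  exact h1 hv

theorem twisted_eq_U (d m : ℕ) : twisted F d m = ⨆ s : ℤ, U F d m s := by
  apply le_antisymm
  · refine Submodule.span_le.2 ?_
    rintro _ ⟨L, hL, hw, rfl⟩
    exact Submodule.mem_iSup_of_mem (size L) (word_mem_U d L hL (by rw [hw]) le_rfl)
  · refine iSup_le fun s => Submodule.span_mono ?_
    rintro _ ⟨L, hL, hw, -, rfl⟩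
    exact ⟨L, hL, by exact_mod_cast hw, rfl⟩

theorem mem_twisted_of_mem_U (d m : ℕ) (s : ℤ) (v : Fock F) (hv : v ∈ U F d m s) :
    v ∈ twisted F d m := by
  rw [twisted_eq_U]
  exact Submodule.mem_iSup_of_mem s hv

/-- on weight `m` all sizes are `≤ m` -/
theorem mem_U_of_mem_twisted (d m : ℕ) (v : Fock F) (hv : v ∈ twisted F d m) :
    v ∈ U F d m m := by
  have h1 : twisted F d m ≤ U F d m m := by
    refine Submodule.span_le.2 ?_
    rintro _ ⟨L, hL, hw, rfl⟩
    refine word_mem_U d L hL (by rw [hw]) ?_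
    unfold size
    rw [hw]
    omega
  exact h1 hv

end Pool.Agent.KMN
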