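import Pool.Agent.KMN.Rel
import Pool.Agent.KMN.FiltA

/-!
# KMN-FiltB: annihilation operators and the filtration

The annihilation operators lower the weight and the size; induction on the monomials.
-/

namespace Pool.Agent.KMN

variable {F : Type*} [Field F]

private theorem fb_word (d j : ℕ) (J : Finset (Fin 4)) (t : ℤ)
    (ht : ∀ L : List Vr, size L ≤ size ((j, Jᶜ) :: L) - t) (L : List Vr)
    (hL : ∀ p ∈ L, 0 < p.1) :
    (an (d * j) J : Module.End F (Fock F)) (word d L) ∈ U F d ((weight L : ℤ) - j) (size L - t) := by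
  induction L with
  | nil =>
    rw [word_nil, an_vac]
    exact Submodule.zero_mem _
  | cons p L ih =>
    have hL' : ∀ p ∈ L, 0 < p.1 := fun q hq => hL q (List.mem_cons_of_mem _ hq)
    have hp : 0 < p.1 := hL p List.mem_cons_self
    have ih' := ih hL'
    have h1 : (an (d * j) J : Module.End F (Fock F)) (word d (p :: L)) =
        (sgn J p.2 : F) • (cr (d * p.1) p.2 : Module.End F (Fock F))
          ((an (d * j) J : Module.End F (Fock F)) (word d L)) +
        (if d * j = d * p.1 ∧ p.2 = Jᶜ then -((d * j : ℕ) : F) * (eps J Jᶜ : F) else 0) •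
          (word d L : Fock F) := by
      rw [word_cons, ← Module.End.mul_apply, an_cr]
      rfl
    rw [h1]
    refine Submodule.add_mem _ (Submodule.smul_mem _ _ ?_) ?_
    · by_cases hpe : p = (1, ∅)
      · subst hpe
        have h2 := cr_one_mem d _ _ _ ih'
        rw [weight_cons, size_cons_one]
        have e1 : ((((1 : ℕ), (∅ : Finset (Fin 4))).1 + weight L : ℕ) : ℤ) - (j : ℤ) =
            (weight L : ℤ) - j + 1 := by
          push_cast
          ring
        rw [e1]
        exact h2
      · have h2 := cr_mem d p.1 hp p.2 _ _ _ ih'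
        rw [weight_cons, size_cons_of_ne p hpe]
        have e1 : ((p.1 + weight L : ℕ) : ℤ) - (j : ℤ) = (weight L : ℤ) - j + p.1 := by
          push_cast
          ring
        have e2 : size L + (p.1 : ℤ) - t = size L - t + p.1 := by ring
        rw [e1, e2]
        exact h2
    · by_cases hc : d * j = d * p.1 ∧ p.2 = Jᶜ
      · rw [if_pos hc]
        rcases Nat.eq_zero_or_pos d with h0 | h0
        · rw [h0, Nat.zero_mul, Nat.cast_zero, neg_zero, zero_mul, zero_smul]
          exact Submodule.zero_mem _
        · have hj : p.1 = j := (Nat.eq_of_mul_eq_mul_left h0 hc.1).symm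
          have hpe : p = (j, Jᶜ) := Prod.ext hj hc.2
          refine Submodule.smul_mem _ _ (word_mem_U d L hL' ?_ ?_)
          · rw [weight_cons, hj]
            push_cast
            ring
          · rw [hpe]
            exact ht L
      · rw [if_neg hc, zero_smul]
        exact Submodule.zero_mem _

private theorem fb_all (d j : ℕ) (J : Finset (Fin 4)) (t : ℤ)
    (ht : ∀ L : List Vr, size L ≤ size ((j, Jᶜ) :: L) - t) (w s : ℤ) (v : Fock F)
    (hv : v ∈ U F d w s) :
    (an (d * j) J : Module.End F (Fock F)) v ∈ U F d (w - j) (s - t) := by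
  have h1 : U F d w s ≤ (U F d (w - j) (s - t)).comap (an (d * j) J : Module.End F (Fock F)) := by
    refine Submodule.span_le.2 ?_
    rintro _ ⟨L, hL, hw, hs, rfl⟩
    have h2 := fb_word (F := F) d j J t ht L hL
    rw [hw] at h2
    exact U_mono d _ (by omega) h2
  exact h1 hv

theorem an_mem (d j : ℕ) (hj : 0 < j) (J : Finset (Fin 4)) (hJ : ¬ (j = 1 ∧ J = Finset.univ))
    (w s : ℤ) (v : Fock F) (hv : v ∈ U F d w s) :
    (an (d * j) J : Module.End F (Fock F)) v ∈ U F d (w - j) (s - j) := by
  refine fb_all d j J j (fun L => ?_) w s v hv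
  have h1 : ((j, Jᶜ) : Vr) ≠ (1, ∅) := by
    intro h
    apply hJ
    refine ⟨congrArg Prod.fst h, ?_⟩
    have h2 : Jᶜ = ∅ := congrArg Prod.snd h
    exact (Finset.compl_eq_empty_iff J).1 h2
  rw [size_cons_of_ne _ h1]
  have h3 : (((j, Jᶜ) : Vr).1 : ℤ) = j := rfl
  rw [h3]
  omega

theorem an_univ_mem (d : ℕ) (w s : ℤ) (v : Fock F) (hv : v ∈ U F d w s) :
    (an (d * 1) Finset.univ : Module.End F (Fock F)) v ∈ U F d (w - 1) s := by
  have h := fb_all d 1 Finset.univ 0 (fun L => ?_) w s v hv
  · rw [sub_zero] at h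
    exact h
  · rw [Finset.compl_univ, size_cons_one, sub_zero]

end Pool.Agent.KMN
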