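import Pool.Agent.KMN.Mot

/-!
# KMN-Fin: finite dimensionality
-/

namespace Pool.Agent.KMN

open CategoryTheory MonoidalCategory Limits

universe v u w

private theorem kf_bound (L : List Vr) (h : ∀ p ∈ L, 0 < p.1) :
    L.length ≤ weight L ∧ ∀ p ∈ L, p.1 ≤ weight L := by
  induction L with
  | nil => exact ⟨Nat.zero_le _, by simp⟩
  | cons q L ih =>
    obtain ⟨h1, h2⟩ := ih fun p hp => h p (List.mem_cons_of_mem _ hp)
    have h3 := h q List.mem_cons_self
    have h4 : weight (q :: L) = q.1 + weight L := by simp [weight]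
    rw [h4, List.length_cons]
    refine ⟨by omega, fun p hp => ?_⟩
    rcases List.mem_cons.1 hp with rfl | hp
    · omega
    · have := h2 p hp
      omega

private theorem kf_lists (m : ℕ) : {L : List Vr | (∀ p ∈ L, 0 < p.1) ∧ weight L = m}.Finite := by
  have hfin : Finite {p : Vr // p.1 ≤ m} := by
    have h1 : ({p : Vr | p.1 ≤ m} : Set Vr).Finite := by
      refine ((Set.finite_Iic m).prod (Set.finite_univ (α := Finset (Fin 4)))).subset ?_
      rintro ⟨a, I⟩ hp
      exact ⟨hp, Set.mem_univ _⟩
    exact h1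
  refine ((List.finite_length_le {p : Vr // p.1 ≤ m} m).image (List.map Subtype.val)).subset ?_
  rintro L ⟨hL, hw⟩
  obtain ⟨h1, h2⟩ := kf_bound L hL
  rw [hw] at h1 h2
  refine ⟨L.attachWith (fun p => p.1 ≤ m) h2, ?_, ?_⟩
  · show (L.attachWith (fun p => p.1 ≤ m) h2).length ≤ m
    rw [List.length_attachWith]
    exact h1
  · exact List.attachWith_map_subtype_val h2

theorem twisted_finite {F : Type*} [Field F] (d m : ℕ) :
    FiniteDimensional F (twisted F d m) := by
  refine FiniteDimensional.span_of_finite F (((kf_lists m).image (word d)).subset ?_)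
  rintro _ ⟨L, hL, hw, rfl⟩
  exact ⟨L, ⟨hL, hw⟩, rfl⟩

theorem finite_of_kummer {C : Type u} [Category.{v} C] [Preadditive C] [HasBinaryBiproducts C]
    [MonoidalCategory C] [RightRigidCategory C] {F : Type w} [Field F]
    (H : C ⥤ ModuleCat.{w} F) [H.Monoidal] (B X : C) (N : ℕ) (hN : 0 < N)
    (K : KummerMotive H B X N) : FiniteDimensional F (H.obj X) := by
  have : NeZero N := ⟨hN.ne'⟩
  have h1 : ∀ χ : Fin 4 → ZMod N, FiniteDimensional F
      ((twisted F (addOrderOf χ) (N / addOrderOf χ)).map (K.J χ)) := by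
    intro χ
    have := twisted_finite (F := F) (addOrderOf χ) (N / addOrderOf χ)
    infer_instance
  have h2 : FiniteDimensional F (⊤ : Submodule F (H.obj X)) := by
    rw [← K.J_span]
    infer_instance
  exact Module.Finite.equiv Submodule.topEquiv

end Pool.Agent.KMN
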