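import Pool.Agent.KMN.Coh

/-!
# Project KMN: the (twisted) Fock space of an abelian surface and the operators `G_k(γ)`

`Fock F` has as basis the monomials in even (commuting) and odd (anticommuting) variables;
`q l α`, `l ∈ ℤ`, `α ∈ H^*(A)`, are the Heisenberg operators of Nakajima and Grojnowski,
`[q_l(α), q_{l'}(β)] = - l δ_{l,-l'} ∫ α β`; `q (-l)`, `l > 0`, are the creation operators.

`twisted F d m` is the part of degree `N = d * m` of the Fock space of the `q_{-dl}(α)`, `l > 0`:
this is `H^*(A^{[N]}, L^{[N]})` for a local system `L` of rank one and exact order `d`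
(Nieper-Wißkirchen). `G d m k γ` is the operator
`G_k(γ) = - ∑_{l(λ) = k + 2, |λ| = 0} (1 / λ!) q_λ(τ_* γ)`, all parts of `λ` in `d ℤ` and at most
`d * m` (Lehn, Li-Qin-Wang, Nieper-Wißkirchen).
-/

namespace Pool.Agent.KMN

open Finset

variable {F : Type*} [Field F]

/-- The variables `(l, I)`: the generator `q_{-l}(e_I)`. -/
abbrev Vr := ℕ × Finset (Fin 4)

/-- A monomial: exponents of the variables with `|I|` even and the set of the variables with `|I|`
odd which occur. -/
abbrev Mon := (Vr →₀ ℕ) × Finset Vr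

/-- The Fock space: linear combinations of monomials. -/
abbrev Fock (F : Type*) [Field F] := Mon →₀ F

/-- The vacuum. -/
noncomputable def vac : Fock F := Finsupp.single (0, ∅) 1

/-- The place of a variable in a total order. -/
def place (p : Vr) : ℕ := 16 * p.1 + ∑ i ∈ p.2, 2 ^ (i : ℕ)

/-- The number of elements of `T` before `p`. -/
def before (p : Vr) (T : Finset Vr) : ℕ := (T.filter fun x => place x < place p).card

/-- The creation operator `q_{-l}(e_I)`: multiplication by the variable `(l, I)`. -/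
noncomputable def cr (l : ℕ) (I : Finset (Fin 4)) : Module.End F (Fock F) :=
  Finsupp.linearCombination F fun c =>
    if Even I.card then Finsupp.single (c.1 + Finsupp.single (l, I) 1, c.2) 1
    else if (l, I) ∈ c.2 then 0
    else Finsupp.single (c.1, insert (l, I) c.2) ((-1) ^ before (l, I) c.2)

/-- The (super) derivative with respect to the variable `(l, I)`. -/
noncomputable def der (l : ℕ) (I : Finset (Fin 4)) : Module.End F (Fock F) :=
  Finsupp.linearCombination F fun c =>
    if Even I.card then Finsupp.single (c.1 - Finsupp.single (l, I) 1, c.2) (c.1 (l, I) : F)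
    else if (l, I) ∈ c.2 then
      Finsupp.single (c.1, c.2.erase (l, I)) ((-1) ^ before (l, I) c.2)
    else 0

/-- The annihilation operator `q_l(e_J) = - l ∑_I (∫ e_J e_I) ∂_{(l, I)}`; only `I = Jᶜ` occurs. -/
noncomputable def an (l : ℕ) (J : Finset (Fin 4)) : Module.End F (Fock F) :=
  (-(l : F) * (eps J Jᶜ : F)) • der l Jᶜ

/-- The operator `q_l(α)`, `l ∈ ℤ`, `α ∈ H^*(A)`. -/
noncomputable def q (l : ℤ) (α : Coh F) : Module.End F (Fock F) :=
  ∑ I, α I • (if l < 0 then cr l.natAbs I else an l.natAbs I)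

/-- `q_{l_1} ⋯ q_{l_n} (τ_* γ)`, where `τ_* γ = ∑ e_{K_1} ⊗ ⋯ ⊗ e_{K_{n-1}} ⊗
(dual K_{n-1} ∧ ⋯ ∧ dual K_1 ∧ γ)` is the push-forward of `γ` to the diagonal of `A^n`. -/
noncomputable def vert : List ℤ → Coh F → Module.End F (Fock F)
  | [], γ => integral γ • 1
  | l :: ls, γ => ∑ K, q l (ee K) * vert ls (wedge (dual K) γ)

/-- The operator `G_k(γ) = - ∑ (1 / λ!) q_λ(τ_* γ)`, the sum over all generalised partitions `λ`
with `k + 2` parts in `d ℤ` (absolute values `≤ d * m`) and sum `0`; written as a sum over ordered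
sequences of `s` creation and `k + 2 - s` annihilation indices. -/
noncomputable def G (d m k : ℕ) (γ : Coh F) : Module.End F (Fock F) :=
  -∑ s ∈ range (k + 3), ∑ i : Fin s → Fin m, ∑ j : Fin (k + 2 - s) → Fin m,
    if ∑ r, ((i r : ℕ) + 1) = ∑ r, ((j r : ℕ) + 1) then
      ((s.factorial * (k + 2 - s).factorial : ℕ) : F)⁻¹ •
        vert (List.ofFn (fun r => -((d * ((i r : ℕ) + 1) : ℕ) : ℤ)) ++
          List.ofFn (fun r => ((d * ((j r : ℕ) + 1) : ℕ) : ℤ))) γ
    else 0

/-- The monomial `q_{-d l_1}(e_{I_1}) ⋯ q_{-d l_r}(e_{I_r}) |0>`. -/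
noncomputable def word (d : ℕ) (L : List Vr) : Fock F :=
  (L.map fun p => (cr (d * p.1) p.2 : Module.End F (Fock F))).prod vac

/-- The weight `l_1 + ⋯ + l_r`. -/
def weight (L : List Vr) : ℕ := (L.map Prod.fst).sum

/-- The part of degree `d * m` of the Fock space of the `q_{-dl}(α)`, `l > 0`. -/
noncomputable def twisted (F : Type*) [Field F] (d m : ℕ) : Submodule F (Fock F) :=
  Submodule.span F {v | ∃ L : List Vr, (∀ p ∈ L, 0 < p.1) ∧ weight L = m ∧ v = word d L}

/-- The lowest class `θ = q_{-d}(1)^m |0>`. -/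
noncomputable def theta (F : Type*) [Field F] (d m : ℕ) : Fock F :=
  word d (List.replicate m (1, ∅))

/-- The span of the `G_{k_1}(γ_1) ⋯ G_{k_r}(γ_r) θ`. -/
noncomputable def generated (F : Type*) [Field F] (d m : ℕ) : Submodule F (Fock F) :=
  Submodule.span F {v | ∃ L : List (ℕ × Coh F),
    v = (L.map fun p => G d m p.1 p.2).prod (theta F d m)}

end Pool.Agent.KMN
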