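import Pool.Agent.KMN.Rel
import Pool.Agent.KMN.Filt

/-!
# KMN-Ones: the operator `q_d(top)` removes factors `q_{-d}(1)`
-/

namespace Pool.Agent.KMN

variable {F : Type*} [Field F]

private theorem ones_comm (d l : ℕ) (I : Finset (Fin 4)) (v : Fock F) :
    (cr (d * 1) ∅ : Module.End F (Fock F)) ((cr l I : Module.End F (Fock F)) v) =
      (cr l I : Module.End F (Fock F)) ((cr (d * 1) ∅ : Module.End F (Fock F)) v) := by
  have h1 := cr_cr (F := F) (d * 1) l ∅ I
  have h2 : sgn ∅ I = 1 := by simp [sgn]
  rw [h2, Int.cast_one, one_smul] at h1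
  exact LinearMap.congr_fun h1 v

private theorem ones_an (d l : ℕ) (I : Finset (Fin 4)) (v : Fock F) :
    (an (d * 1) Finset.univ : Module.End F (Fock F)) ((cr l I : Module.End F (Fock F)) v) =
      (cr l I : Module.End F (Fock F)) ((an (d * 1) Finset.univ : Module.End F (Fock F)) v) +
        (if d * 1 = l ∧ I = ∅ then -(d : F) else 0) • v := by
  have h1 := an_cr (F := F) (d * 1) l Finset.univ I
  have h2 : sgn Finset.univ I = 1 := by
    have h3 : ¬ Odd (Finset.univ : Finset (Fin 4)).card := by decide
    unfold sgn
    rw [if_neg fun h => h3 h.1]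
  have h3 : eps (Finset.univ : Finset (Fin 4)) (Finset.univᶜ) = 1 := by
    simp [eps]
  rw [h2, h3] at h1
  simp only [Int.cast_one, one_smul, mul_one, Finset.compl_univ] at h1 ⊢
  exact LinearMap.congr_fun h1 v

theorem cr_word_erase (d : ℕ) (L : List Vr) (h : ((1, ∅) : Vr) ∈ L) :
    (cr (d * 1) ∅ : Module.End F (Fock F)) (word d (L.erase (1, ∅))) = word d L := by
  induction L with
  | nil => simp at h
  | cons p L ih =>
    by_cases hp : p = (1, ∅)
    · subst hp
      rw [List.erase_cons_head, word_cons]
    · have h' : ((1, ∅) : Vr) ∈ L := by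
        rcases List.mem_cons.1 h with h1 | h1
        · exact absurd h1.symm hp
        · exact h1
      rw [List.erase_cons_tail (by simpa using hp), word_cons, word_cons, ones_comm, ih h']

theorem an_word (d : ℕ) (hd : 0 < d) (L : List Vr) :
    (an (d * 1) Finset.univ : Module.End F (Fock F)) (word d L) =
      (-(d : F) * (ones L : F)) • word d (L.erase (1, ∅)) := by
  induction L with
  | nil =>
    rw [word_nil, an_vac]
    simp [ones]
  | cons p L ih =>
    rw [word_cons, ones_an, ih]
    by_cases hp : p = (1, ∅)
    · subst hp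
      have h1 : ones ((1, ∅) :: L) = ones L + 1 := by
        simp [ones]
      rw [if_pos ⟨rfl, rfl⟩, List.erase_cons_head, h1, map_smul]
      by_cases hm : ((1, ∅) : Vr) ∈ L
      · have h2 := cr_word_erase (F := F) d L hm
        show (-(d : F) * (ones L : F)) • (cr (d * 1) ∅ : Module.End F (Fock F))
          (word d (L.erase (1, ∅))) + -(d : F) • word d L = _
        rw [h2, ← add_smul]
        congr 1
        push_cast
        ring
      · have h2 : ones L = 0 := List.count_eq_zero.2 hm
        rw [h2]
        simp
    · have h1 : ones (p :: L) = ones L := by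
        unfold ones
        exact List.count_cons_of_ne (fun h => hp h)
      have h2 : ¬ (d * 1 = d * p.1 ∧ p.2 = ∅) := by
        rintro ⟨h3, h4⟩
        apply hp
        have h5 := Nat.eq_of_mul_eq_mul_left hd h3
        exact Prod.ext h5.symm h4
      rw [if_neg h2, h1, List.erase_cons_tail (by simpa using hp), word_cons, map_smul, zero_smul,
        add_zero]

theorem an_pow_word (d : ℕ) (hd : 0 < d) (t : ℕ) (L : List Vr) :
    ((an (d * 1) Finset.univ : Module.End F (Fock F)) ^ t)
      (word d (List.replicate t ((1, ∅) : Vr) ++ L)) =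
      (∏ r ∈ Finset.range t, (-(d : F) * ((ones L + r + 1 : ℕ) : F))) • word d L := by
  induction t with
  | zero => simp
  | succ t ih =>
    have h1 : ones ((1, ∅) :: (List.replicate t ((1, ∅) : Vr) ++ L)) = ones L + t + 1 := by
      simp [ones]
      ring
    rw [pow_succ, List.replicate_succ, List.cons_append]
    show ((an (d * 1) Finset.univ : Module.End F (Fock F)) ^ t)
      ((an (d * 1) Finset.univ : Module.End F (Fock F))
        (word d ((1, ∅) :: (List.replicate t ((1, ∅) : Vr) ++ L)))) = _
    rw [an_word d hd, List.erase_cons_head, h1, map_smul, ih, smul_smul, Finset.prod_range_succ,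
      mul_comm]

end Pool.Agent.KMN
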