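import Pool.Agent.KMN.Rel
import Pool.Agent.KMN.Filt

/-! KMN-Perm: monomials up to a permutation of the factors. -/

namespace Pool.Agent.KMN

variable {F : Type*} [Field F]

theorem word_perm (d : ℕ) {L L' : List Vr} (h : L.Perm L') :
    ∃ c : F, c ≠ 0 ∧ (word d L : Fock F) = c • word d L' := by
  induction h with
  | nil => exact ⟨1, one_ne_zero, (one_smul _ _).symm⟩
  | cons p _ ih =>
    obtain ⟨c, hc, h1⟩ := ih
    exact ⟨c, hc, by rw [word_cons, word_cons, h1, map_smul]⟩
  | swap p q L =>
    refine ⟨(sgn q.2 p.2 : F), ?_, ?_⟩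
    · unfold sgn
      split_ifs
      · push_cast
        exact neg_ne_zero.2 one_ne_zero
      · push_cast
        exact one_ne_zero
    · rw [word_cons, word_cons, word_cons, word_cons]
      have h1 := LinearMap.congr_fun (cr_cr (F := F) (d * q.1) (d * p.1) q.2 p.2) (word d L)
      exact h1
  | trans _ _ ih1 ih2 =>
    obtain ⟨c, hc, h1⟩ := ih1
    obtain ⟨e, he, h2⟩ := ih2
    exact ⟨c * e, mul_ne_zero hc he, by rw [h1, h2, smul_smul]⟩

end Pool.Agent.KMN
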