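import Pool.Agent.KMN.Lead
import Pool.Agent.KMN.Ones
import Pool.Agent.KMN.Perm

/-!
# KMN-Gen: `θ` generates the twisted Fock space

`generation`: induction on the size of the monomials. A factor `p = (l, I)` different from `(1, ∅)` of a monomial is
replaced by `l` factors `(1, ∅)`; this decreases the size by `l`, and the leading term of `G_(l-1)(e_I)` (`G_lead`) gives the
monomial back up to a non-zero scalar (`an_pow_word`) and smaller monomials. `generation_span` follows.
-/

namespace Pool.Agent.KMN

variable {F : Type*} [Field F]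

private theorem kgen_weight_rep (m : ℕ) : weight (List.replicate m ((1, ∅) : Vr)) = m := by
  simp [weight]

private theorem kgen_weight_app (L L' : List Vr) : weight (L ++ L') = weight L + weight L' := by
  simp [weight]

private theorem kgen_weight_perm {L L' : List Vr} (h : L.Perm L') : weight L = weight L' :=
  (h.map Prod.fst).sum_eq

private theorem kgen_size_perm {L L' : List Vr} (h : L.Perm L') : size L = size L' := by
  unfold size ones
  rw [kgen_weight_perm h, h.count_eq]

private theorem kgen_size_rep (a : ℕ) (L : List Vr) : size (List.replicate a ((1, ∅) : Vr) ++ L) = size L := by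
  induction a with
  | zero => rfl
  | succ a ih =>
    rw [List.replicate_succ, List.cons_append, size_cons_one, ih]

private theorem kgen_step [CharZero F] (d m : ℕ) (hd : 0 < d) (P : Submodule F (Fock F))
    (hG : ∀ k γ, ∀ v ∈ twisted F d m, v ∈ P → G d m k γ v ∈ P) (k : ℕ) (I : Finset (Fin 4))
    (L : List Vr) (hL : ∀ p ∈ L, 0 < p.1) (hw : k + 1 + weight L = m)
    (hP : (word d (List.replicate (k + 1) ((1, ∅) : Vr) ++ L) : Fock F) ∈ P)
    (hU : U F d m (size L + k) ≤ P) : (word d ((k + 1, I) :: L) : Fock F) ∈ P := by
  have hpos : ∀ p ∈ List.replicate (k + 1) ((1, ∅) : Vr) ++ L, 0 < p.1 := by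
    intro p hp
    rcases List.mem_append.1 hp with h | h
    · rw [List.eq_of_mem_replicate h]
      exact Nat.one_pos
    · exact hL p h
  have hwt : weight (List.replicate (k + 1) ((1, ∅) : Vr) ++ L) = m := by
    rw [kgen_weight_app, kgen_weight_rep, hw]
  have hvU : (word d (List.replicate (k + 1) ((1, ∅) : Vr) ++ L) : Fock F) ∈ U F d m (size L) :=
    word_mem_U d _ hpos (by rw [hwt]) (kgen_size_rep _ _).le
  have hvT : (word d (List.replicate (k + 1) ((1, ∅) : Vr) ++ L) : Fock F) ∈ twisted F d m :=
    mem_twisted_of_mem_U d m _ _ hvU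
  have h1 := hU (G_lead d m k hd (by omega) (ee I) m (size L) _ hvU)
  have h2 := (Submodule.add_mem_iff_right P (hG k (ee I) _ hvT hP)).1 h1
  rw [an_pow_word d hd, q_neg_ee _ (Nat.mul_pos hd (Nat.succ_pos k)), map_smul, smul_smul] at h2
  have hc : ((k + 1).factorial : F)⁻¹ *
      ∏ r ∈ Finset.range (k + 1), (-(d : F) * ((ones L + r + 1 : ℕ) : F)) ≠ 0 := by
    refine mul_ne_zero (inv_ne_zero (Nat.cast_ne_zero.2 (Nat.factorial_ne_zero _))) ?_
    rw [Finset.prod_ne_zero_iff]
    intro r _
    exact mul_ne_zero (neg_ne_zero.2 (Nat.cast_ne_zero.2 hd.ne')) (Nat.cast_ne_zero.2 (by omega))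
  rw [word_cons]
  exact (Submodule.smul_mem_iff P hc).1 h2

theorem theta_mem_twisted (d m : ℕ) : theta F d m ∈ twisted F d m := by
  refine Submodule.subset_span ⟨List.replicate m (1, ∅), fun p hp => ?_, kgen_weight_rep m, rfl⟩
  rw [List.eq_of_mem_replicate hp]
  exact Nat.one_pos

theorem generation [CharZero F] (d m : ℕ) (hd : 0 < d) (P : Submodule F (Fock F))
    (h0 : theta F d m ∈ P)
    (hG : ∀ k γ, ∀ v ∈ twisted F d m, v ∈ P → G d m k γ v ∈ P) : twisted F d m ≤ P := by
  have key : ∀ n : ℕ, ∀ L : List Vr, (∀ p ∈ L, 0 < p.1) → weight L = m → size L < n →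
      (word d L : Fock F) ∈ P := by
    intro n
    induction n with
    | zero =>
      intro L hL _ hs
      have := size_nonneg L hL
      exact absurd hs (by push_cast; omega)
    | succ n ih =>
      intro L hL hw hs
      by_cases hall : ∀ p ∈ L, p = (1, ∅)
      · have h1 : L = List.replicate L.length (1, ∅) := List.eq_replicate_iff.2 ⟨rfl, hall⟩
        have h2 : L.length = m := by
          rw [← hw]
          conv_rhs => rw [h1, kgen_weight_rep]
        rw [h1, h2]
        exact h0
      · push Not at hall
        obtain ⟨p, hp, hp1⟩ := hall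
        have hperm := List.perm_cons_erase hp
        have hL' : ∀ q ∈ L.erase p, 0 < q.1 := fun q hq => hL q (List.mem_of_mem_erase hq)
        have hw' : p.1 + weight (L.erase p) = m := by
          rw [← weight_cons, ← kgen_weight_perm hperm, hw]
        have hs' : size L = size (L.erase p) + p.1 := by
          rw [kgen_size_perm hperm, size_cons_of_ne p hp1]
        have hp0 := hL p hp
        obtain ⟨l, I⟩ := p
        obtain ⟨k, rfl⟩ : ∃ k, l = k + 1 := ⟨l - 1, by
          have : 0 < l := hp0
          omega⟩
        have hsz : size (L.erase (k + 1, I)) + k < n := by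
          have h3 : size L = size (L.erase (k + 1, I)) + ((k + 1 : ℕ) : ℤ) := hs'
          push_cast at h3 hs
          omega
        obtain ⟨c, hc, hcw⟩ := word_perm (F := F) d hperm
        rw [hcw]
        refine P.smul_mem c (kgen_step d m hd P hG k I (L.erase (k + 1, I)) hL' hw' ?_ ?_)
        · refine ih _ ?_ ?_ ?_
          · intro q hq
            rcases List.mem_append.1 hq with h | h
            · rw [List.eq_of_mem_replicate h]
              exact Nat.one_pos
            · exact hL' q h
          · rw [kgen_weight_app, kgen_weight_rep]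
            exact hw'
          · rw [kgen_size_rep]
            omega
        · refine Submodule.span_le.2 ?_
          rintro v ⟨L₁, h1, h2, h3, rfl⟩
          exact ih L₁ h1 (by exact_mod_cast h2) (lt_of_le_of_lt h3 hsz)
  refine Submodule.span_le.2 ?_
  rintro v ⟨L, hL, hw, rfl⟩
  exact key ((size L).toNat + 1) L hL hw (by
    have := Int.self_le_toNat (size L)
    push_cast
    omega)

theorem generation_span [CharZero F] (d m : ℕ) (hd : 0 < d) :
    generated F d m = twisted F d m := by
  apply le_antisymm
  · refine Submodule.span_le.2 ?_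
    rintro v ⟨L, rfl⟩
    show (L.map fun p => G d m p.1 p.2).prod (theta F d m) ∈ twisted F d m
    induction L with
    | nil => exact theta_mem_twisted d m
    | cons p L ih =>
      rw [List.map_cons, List.prod_cons]
      exact G_mem d m p.1 hd p.2 _ ih
  · refine generation d m hd _ (Submodule.subset_span ⟨[], rfl⟩) ?_
    intro k γ v _ hv
    have h1 : generated F d m ≤ (generated F d m).comap (G d m k γ) := by
      refine Submodule.span_le.2 ?_
      rintro u ⟨L, rfl⟩
      exact Submodule.subset_span ⟨(k, γ) :: L, rfl⟩
    exact h1 hv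

end Pool.Agent.KMN
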