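import Pool.Agent.KMN.VertS

/-!
# KMN-Lead: the leading term of `G_k(γ)`

Plan. `lead_term`: `vert (-(d(k+1)) :: 1^{k+1}) γ = ∑ K, cr (d(k+1)) K * vert 1^{k+1} (dual K ∧ γ)`
(`q_neg_ee`); by `vert_ones` each term is `cr K (∫(dual K ∧ γ) • D^{k+1} v + r_K)` with
`r_K ∈ U (w - (k+1)) (s - 1)`; `cr_mem` puts `cr K r_K` into `U w (s + k)`;
`∑ K, ∫(dual K ∧ γ) • cr K = q (-(d(k+1))) γ` by `q_neg` and `integral_dual_wedge`.
`G_lead`: in the definition of `G` every term with `∑ i = ∑ j` is of the form `vert_mem` (use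
`List.map_ofFn`/`List.ofFn` to write the list as `is.map .. ++ js.map ..` with
`is = ofFn (i + 1)`, `js = ofFn (j + 1)`, both sums equal) with size bound `s + js.count 1`; and
`js.count 1 ≤ k + 2 - s'` (`s'` the number of creations). If `js.count 1 ≤ k` it is in
`U w (s + k)`. Otherwise `s' = 0` (impossible: the sum of the `i` is `0` and the sum of the `j` is
`≥ k + 2`) or `s' = 1` and all `j = 1` (i.e. `j r = 0`), and then `i + 1 = k + 1`: this one term is
`(1 / (1! (k+1)!)) • vert (-(d(k+1)) :: 1^{k+1}) γ`. It occurs because `k < m`.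
-/

namespace Pool.Agent.KMN

variable {F : Type*} [Field F]

theorem lead_term (d k : ℕ) (hd : 0 < d) (γ : Coh F) (w s : ℤ) (v : Fock F)
    (hv : v ∈ U F d w s) :
    vert (-((d * (k + 1) : ℕ) : ℤ) :: (List.replicate (k + 1) 1).map fun j => ((d * j : ℕ) : ℤ)) γ v -
      q (-((d * (k + 1) : ℕ) : ℤ)) γ
        (((an (d * 1) Finset.univ : Module.End F (Fock F)) ^ (k + 1)) v) ∈
      U F d w (s + k) := by
  have hdk : 0 < d * (k + 1) := Nat.mul_pos hd (Nat.succ_pos k)
  have h1 : vert (-((d * (k + 1) : ℕ) : ℤ) :: (List.replicate (k + 1) 1).map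
      fun j => ((d * j : ℕ) : ℤ)) γ v = ∑ K, (cr (d * (k + 1)) K : Module.End F (Fock F))
        (vert ((List.replicate (k + 1) 1).map fun j => ((d * j : ℕ) : ℤ)) (wedge (dual K) γ) v) := by
    rw [vert, LinearMap.sum_apply]
    refine Finset.sum_congr rfl fun K _ => ?_
    rw [q_neg_ee _ hdk, Module.End.mul_apply]
  have h2 : q (-((d * (k + 1) : ℕ) : ℤ)) γ
        (((an (d * 1) Finset.univ : Module.End F (Fock F)) ^ (k + 1)) v) =
      ∑ K, (cr (d * (k + 1)) K : Module.End F (Fock F)) (integral (wedge (dual K) γ) •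
        (((an (d * 1) Finset.univ : Module.End F (Fock F)) ^ (k + 1)) v)) := by
    rw [q_neg _ hdk, LinearMap.sum_apply]
    refine Finset.sum_congr rfl fun K _ => ?_
    rw [integral_dual_wedge, map_smul, LinearMap.smul_apply]
  rw [h1, h2, ← Finset.sum_sub_distrib]
  refine Submodule.sum_mem _ fun K _ => ?_
  rw [← map_sub]
  have h3 := cr_mem d (k + 1) (Nat.succ_pos k) K (w - ((k + 1 : ℕ) : ℤ)) (s - 1) _
    (vert_ones d (k + 1) (wedge (dual K) γ) w s v hv)
  have h4 : w - ((k + 1 : ℕ) : ℤ) + ((k + 1 : ℕ) : ℤ) = w := by ring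
  have h5 : s - 1 + ((k + 1 : ℕ) : ℤ) = s + k := by push_cast; ring
  rw [h4, h5] at h3
  exact h3

private theorem klead_sum {R M ι : Type*} [Ring R] [AddCommGroup M] [Module R M]
    (W : Submodule R M) (t : Finset ι) (f : ι → M) (x₀ : ι) (hx : x₀ ∈ t) (c : M)
    (h : ∀ x ∈ t, x ≠ x₀ → f x ∈ W) (h0 : f x₀ - c ∈ W) : ∑ x ∈ t, f x - c ∈ W := by
  classical
  rw [← Finset.add_sum_erase t f hx, add_sub_right_comm]
  refine W.add_mem h0 (W.sum_mem fun x hx' => ?_)
  exact h x (Finset.mem_of_mem_erase hx') (Finset.ne_of_mem_erase hx')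

private theorem klead_list {n m : ℕ} (d : ℕ) (i : Fin n → Fin m) :
    List.ofFn (fun r => -((d * ((i r : ℕ) + 1) : ℕ) : ℤ)) =
      (List.ofFn fun r => (i r : ℕ) + 1).map fun i => -((d * i : ℕ) : ℤ) := by
  rw [List.map_ofFn]
  rfl

private theorem klead_list' {n m : ℕ} (d : ℕ) (i : Fin n → Fin m) :
    List.ofFn (fun r => ((d * ((i r : ℕ) + 1) : ℕ) : ℤ)) =
      (List.ofFn fun r => (i r : ℕ) + 1).map fun i => ((d * i : ℕ) : ℤ) := by
  rw [List.map_ofFn]
  rfl

private theorem klead_vert {a b m : ℕ} (d : ℕ) (hd : 0 < d) (i : Fin a → Fin m)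
    (j : Fin b → Fin m) (hij : ∑ r, ((i r : ℕ) + 1) = ∑ r, ((j r : ℕ) + 1)) (γ : Coh F) (w s : ℤ)
    (v : Fock F) (hv : v ∈ U F d w s) :
    vert (List.ofFn (fun r => -((d * ((i r : ℕ) + 1) : ℕ) : ℤ)) ++
          List.ofFn (fun r => ((d * ((j r : ℕ) + 1) : ℕ) : ℤ))) γ v ∈
      U F d w (s + (List.ofFn fun r => (j r : ℕ) + 1).count 1) := by
  rw [klead_list, klead_list']
  have h1 := vert_mem d hd (List.ofFn fun r => (i r : ℕ) + 1) (List.ofFn fun r => (j r : ℕ) + 1)
    (by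
      intro x hx
      obtain ⟨r, rfl⟩ := (List.mem_ofFn' _ _).1 hx
      exact Nat.succ_pos _)
    (by
      intro x hx
      obtain ⟨r, rfl⟩ := (List.mem_ofFn' _ _).1 hx
      exact Nat.succ_pos _) γ w s v hv
  rw [List.sum_ofFn, List.sum_ofFn, hij, add_sub_cancel_right, add_sub_cancel_right] at h1
  exact h1

private theorem klead_count {b m : ℕ} (j : Fin b → Fin m) :
    (List.ofFn fun r => (j r : ℕ) + 1).count 1 ≤ b := by
  refine List.count_le_length.trans ?_
  rw [List.length_ofFn]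

private theorem klead_count' {b m : ℕ} (j : Fin b → Fin m)
    (h : b ≤ (List.ofFn fun r => (j r : ℕ) + 1).count 1) (r : Fin b) : (j r : ℕ) = 0 := by
  have h1 : (List.ofFn fun r => (j r : ℕ) + 1).count 1 =
      (List.ofFn fun r => (j r : ℕ) + 1).length := by
    refine le_antisymm List.count_le_length ?_
    rw [List.length_ofFn]
    exact h
  have h2 := List.count_eq_length.1 h1 ((j r : ℕ) + 1) ((List.mem_ofFn' _ _).2 ⟨r, rfl⟩)
  omega

/-- the terms which are not the leading one -/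
private theorem klead_other {a m : ℕ} (d k : ℕ) (hd : 0 < d) (ha : a < k + 3) (i : Fin a → Fin m)
    (j : Fin (k + 2 - a) → Fin m) (hij : ∑ r, ((i r : ℕ) + 1) = ∑ r, ((j r : ℕ) + 1))
    (hne : a = 1 → ∃ r, (j r : ℕ) ≠ 0) (γ : Coh F) (w s : ℤ)
    (v : Fock F) (hv : v ∈ U F d w s) :
    vert (List.ofFn (fun r => -((d * ((i r : ℕ) + 1) : ℕ) : ℤ)) ++
          List.ofFn (fun r => ((d * ((j r : ℕ) + 1) : ℕ) : ℤ))) γ v ∈ U F d w (s + k) := by
  refine U_mono d w ?_ (klead_vert d hd i j hij γ w s v hv)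
  have h1 := klead_count j
  have h2 : (List.ofFn fun r => (j r : ℕ) + 1).count 1 ≤ k := by
    rcases Nat.lt_or_ge 1 a with h3 | h3
    · omega
    · by_contra h4
      push Not at h4
      rcases Nat.eq_zero_or_pos a with h5 | h5
      · subst h5
        have h6 : ∑ r : Fin (k + 2 - 0), 1 ≤ ∑ r, ((j r : ℕ) + 1) :=
          Finset.sum_le_sum fun r _ => Nat.succ_le_succ (Nat.zero_le _)
        rw [← hij, Finset.sum_const, Finset.card_univ, Fintype.card_fin, smul_eq_mul, mul_one,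
          Finset.univ_eq_empty, Finset.sum_empty] at h6
        omega
      · have h6 : a = 1 := by omega
        obtain ⟨r, hr⟩ := hne h6
        exact hr (klead_count' j (by omega) r)
  have h3 : ((List.ofFn fun r => (j r : ℕ) + 1).count 1 : ℤ) ≤ (k : ℤ) := by exact_mod_cast h2
  linarith

/-- the leading term -/
private theorem klead_one {m : ℕ} (d k : ℕ) (hd : 0 < d) (i₀ : Fin 1 → Fin m)
    (hi₀ : ∀ r, (i₀ r : ℕ) = k) (j₀ : Fin (k + 2 - 1) → Fin m) (hj₀ : ∀ r, (j₀ r : ℕ) = 0)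
    (γ : Coh F) (w s : ℤ) (v : Fock F) (hv : v ∈ U F d w s) :
    (if ∑ r, ((i₀ r : ℕ) + 1) = ∑ r, ((j₀ r : ℕ) + 1) then
      (((Nat.factorial 1 * (k + 2 - 1).factorial : ℕ) : F)⁻¹ •
        vert (List.ofFn (fun r => -((d * ((i₀ r : ℕ) + 1) : ℕ) : ℤ)) ++
          List.ofFn (fun r => ((d * ((j₀ r : ℕ) + 1) : ℕ) : ℤ))) γ)
      else 0 : Module.End F (Fock F)) v - ((k + 1).factorial : F)⁻¹ • q (-((d * (k + 1) : ℕ) : ℤ)) γ
        (((an (d * 1) Finset.univ : Module.End F (Fock F)) ^ (k + 1)) v) ∈ U F d w (s + k) := by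
  have h1 : ∑ r, ((i₀ r : ℕ) + 1) = ∑ r, ((j₀ r : ℕ) + 1) := by
    simp only [hi₀, hj₀]
    show ∑ r : Fin 1, (k + 1) = ∑ r : Fin (k + 1), (0 + 1)
    rw [Finset.sum_const, Finset.sum_const, Finset.card_univ, Finset.card_univ, Fintype.card_fin,
      Fintype.card_fin]
    simp
  rw [if_pos h1]
  have h2 : List.ofFn (fun r => -((d * ((i₀ r : ℕ) + 1) : ℕ) : ℤ)) ++
          List.ofFn (fun r => ((d * ((j₀ r : ℕ) + 1) : ℕ) : ℤ)) =
      (-((d * (k + 1) : ℕ) : ℤ) :: (List.replicate (k + 1) 1).map fun j => ((d * j : ℕ) : ℤ)) := by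
    simp only [hi₀, hj₀]
    show List.ofFn (fun _ : Fin 1 => -((d * (k + 1) : ℕ) : ℤ)) ++
      List.ofFn (fun _ : Fin (k + 1) => ((d * (0 + 1) : ℕ) : ℤ)) = _
    rw [List.ofFn_const, List.ofFn_const, List.map_replicate]
    rfl
  rw [h2]
  have h3 : (Nat.factorial 1 * (k + 2 - 1).factorial : ℕ) = (k + 1).factorial := by
    show Nat.factorial 1 * (k + 1).factorial = _
    rw [Nat.factorial_one, one_mul]
  rw [h3, LinearMap.smul_apply, ← smul_sub]
  exact Submodule.smul_mem _ _ (lead_term d k hd γ w s v hv)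

theorem G_lead (d m k : ℕ) (hd : 0 < d) (hk : k < m) (γ : Coh F) (w s : ℤ) (v : Fock F)
    (hv : v ∈ U F d w s) :
    G d m k γ v + ((k + 1).factorial : F)⁻¹ • q (-((d * (k + 1) : ℕ) : ℤ)) γ
        (((an (d * 1) Finset.univ : Module.End F (Fock F)) ^ (k + 1)) v) ∈
      U F d w (s + k) := by
  have hm : 0 < m := lt_of_le_of_lt (Nat.zero_le k) hk
  have key : (∑ a ∈ Finset.range (k + 3), ∑ i : Fin a → Fin m, ∑ j : Fin (k + 2 - a) → Fin m,
      (if ∑ r, ((i r : ℕ) + 1) = ∑ r, ((j r : ℕ) + 1) then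
      (((a.factorial * (k + 2 - a).factorial : ℕ) : F)⁻¹ •
        vert (List.ofFn (fun r => -((d * ((i r : ℕ) + 1) : ℕ) : ℤ)) ++
          List.ofFn (fun r => ((d * ((j r : ℕ) + 1) : ℕ) : ℤ))) γ : Module.End F (Fock F))
      else 0) v) - ((k + 1).factorial : F)⁻¹ • q (-((d * (k + 1) : ℕ) : ℤ)) γ
        (((an (d * 1) Finset.univ : Module.End F (Fock F)) ^ (k + 1)) v) ∈
      U F d w (s + k) := by
    have hoth : ∀ a, a < k + 3 → ∀ (i : Fin a → Fin m) (j : Fin (k + 2 - a) → Fin m),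
        (a = 1 → ∑ r, ((i r : ℕ) + 1) = ∑ r, ((j r : ℕ) + 1) → ∃ r, (j r : ℕ) ≠ 0) →
        (if ∑ r, ((i r : ℕ) + 1) = ∑ r, ((j r : ℕ) + 1) then
      (((a.factorial * (k + 2 - a).factorial : ℕ) : F)⁻¹ •
        vert (List.ofFn (fun r => -((d * ((i r : ℕ) + 1) : ℕ) : ℤ)) ++
          List.ofFn (fun r => ((d * ((j r : ℕ) + 1) : ℕ) : ℤ))) γ : Module.End F (Fock F))
      else 0) v ∈ U F d w (s + k) := by
      intro a ha i j hne
      split_ifs with hij
      · rw [LinearMap.smul_apply]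
        exact Submodule.smul_mem _ _
          (klead_other d k hd ha i j hij (fun h => hne h hij) γ w s v hv)
      · exact Submodule.zero_mem _
    refine klead_sum _ _ _ 1 (Finset.mem_range.2 (by omega)) _ ?_ ?_
    · intro a ha ha1
      exact Submodule.sum_mem _ fun i _ => Submodule.sum_mem _ fun j _ =>
        hoth a (Finset.mem_range.1 ha) i j fun h => absurd h ha1
    · obtain ⟨i₀, hi₀⟩ : ∃ i₀ : Fin 1 → Fin m, ∀ r, (i₀ r : ℕ) = k := ⟨fun _ => ⟨k, hk⟩, fun _ => rfl⟩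
      obtain ⟨j₀, hj₀⟩ : ∃ j₀ : Fin (k + 2 - 1) → Fin m, ∀ r, (j₀ r : ℕ) = 0 :=
        ⟨fun _ => ⟨0, hm⟩, fun _ => rfl⟩
      refine klead_sum _ _ _ i₀ (Finset.mem_univ _) _ ?_ ?_
      · intro i _ hi
        refine Submodule.sum_mem _ fun j _ => hoth 1 (by omega) i j fun _ hij => ?_
        by_contra hcon
        push Not at hcon
        apply hi
        funext r
        have hr : r = 0 := Subsingleton.elim _ _
        subst hr
        apply Fin.ext
        rw [hi₀]
        have h1 : ∑ r, ((j r : ℕ) + 1) = k + 1 := by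
          rw [Finset.sum_congr rfl fun r _ => by rw [hcon r]]
          rw [Finset.sum_const, Finset.card_univ, Fintype.card_fin]
          simp
        rw [h1, Fin.sum_univ_one] at hij
        omega
      · refine klead_sum _ _ _ j₀ (Finset.mem_univ _) _ ?_ ?_
        · intro j _ hj
          have hne : ∃ r, (j r : ℕ) ≠ 0 := by
            by_contra hcon
            push Not at hcon
            exact hj (funext fun r => Fin.ext (by rw [hcon r, hj₀]))
          exact hoth 1 (by omega) i₀ j (fun _ _ => hne)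
        · exact klead_one d k hd i₀ hi₀ j₀ hj₀ γ w s v hv
  have h1 : G d m k γ v + ((k + 1).factorial : F)⁻¹ • q (-((d * (k + 1) : ℕ) : ℤ)) γ
        (((an (d * 1) Finset.univ : Module.End F (Fock F)) ^ (k + 1)) v) =
      -((∑ a ∈ Finset.range (k + 3), ∑ i : Fin a → Fin m, ∑ j : Fin (k + 2 - a) → Fin m,
      (if ∑ r, ((i r : ℕ) + 1) = ∑ r, ((j r : ℕ) + 1) then
      (((a.factorial * (k + 2 - a).factorial : ℕ) : F)⁻¹ •
        vert (List.ofFn (fun r => -((d * ((i r : ℕ) + 1) : ℕ) : ℤ)) ++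
          List.ofFn (fun r => ((d * ((j r : ℕ) + 1) : ℕ) : ℤ))) γ : Module.End F (Fock F))
      else 0) v) - ((k + 1).factorial : F)⁻¹ • q (-((d * (k + 1) : ℕ) : ℤ)) γ
        (((an (d * 1) Finset.univ : Module.End F (Fock F)) ^ (k + 1)) v)) := by
    unfold G
    rw [neg_sub, LinearMap.neg_apply, sub_eq_neg_add]
    congr 2
    simp only [LinearMap.sum_apply]
  rw [h1]
  exact Submodule.neg_mem _ key

/-- `G_k(γ)` preserves `twisted F d m` (for all `k`). -/
theorem G_mem (d m k : ℕ) (hd : 0 < d) (γ : Coh F) (v : Fock F) (hv : v ∈ twisted F d m) :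
    G d m k γ v ∈ twisted F d m := by
  have h0 := mem_U_of_mem_twisted d m v hv
  unfold G
  rw [LinearMap.neg_apply]
  refine Submodule.neg_mem _ ?_
  simp only [LinearMap.sum_apply]
  refine Submodule.sum_mem _ fun a _ => Submodule.sum_mem _ fun i _ => Submodule.sum_mem _ fun j _ => ?_
  split_ifs with hij
  · rw [LinearMap.smul_apply]
    exact Submodule.smul_mem _ _ (mem_twisted_of_mem_U d m _ _ (klead_vert d hd i j hij γ m m v h0))
  · exact Submodule.zero_mem _

end Pool.Agent.KMN
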