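import Pool.Agent.KMN.Fock

/-!
# Project KMN: motives

`C` is a rigid additive tensor category (the category `Mot` of homological motives), `H` a faithful
tensor functor to vector spaces (Betti cohomology with coefficients in `F`).
-/

namespace Pool.Agent.KMN

open CategoryTheory MonoidalCategory Limits TensorProduct

universe v u w

section

variable {C : Type u} [Category.{v} C] [Preadditive C] [HasBinaryBiproducts C]
  [MonoidalCategory C] [RightRigidCategory C]

/-- The thick tensor subcategory `⟨B⟩` generated by `B`: the smallest full subcategory containing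
`B` and closed under finite direct sums, tensor products, duals and direct summands (in particular
isomorphisms). -/
inductive Thick (B : C) : C → Prop
  | base : Thick B B
  | zero (X : C) (h : IsZero X) : Thick B X
  | sum (X Y : C) (hX : Thick B X) (hY : Thick B Y) : Thick B (X ⊞ Y)
  | tensor (X Y : C) (hX : Thick B X) (hY : Thick B Y) : Thick B (X ⊗ Y)
  | dual (X : C) (hX : Thick B X) : Thick B Xᘁ
  | summand (X Y : C) (i : X ⟶ Y) (p : Y ⟶ X) (h : i ≫ p = 𝟙 X) (hY : Thick B Y) : Thick B X

variable {F : Type w} [Field F]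

/-- The part of `H(X)` coming from `⟨B⟩`: the sum of the images of all morphisms `M ⟶ X`,
`M` in `⟨B⟩`. -/
noncomputable def fromB (H : C ⥤ ModuleCat.{w} F) (B X : C) : Submodule F (H.obj X) :=
  ⨆ (M : C) (_ : Thick B M) (f : M ⟶ X), LinearMap.range (H.map f).hom

/-- The cup product on `H(X)` defined by a morphism `X ⊗ X ⟶ X`. -/
noncomputable def cup (H : C ⥤ ModuleCat.{w} F) [H.Monoidal] {X : C} (mul : X ⊗ X ⟶ X)
    (x y : H.obj X) : H.obj X :=
  (H.map mul).hom ((Functor.LaxMonoidal.μ H X X).hom (x ⊗ₜ[F] y))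

/-- What is used about the motive `X` of a variety of `Kum^n`-type, `N = n + 1`, and `B` the motive
of its Kuga-Satake variety. -/
structure KummerMotive (H : C ⥤ ModuleCat.{w} F) [H.Monoidal] (B X : C) (N : ℕ) where
  /-- cup product -/
  mul : X ⊗ X ⟶ X
  /-- Tate twist -/
  T : C
  thick_T : Thick B T
  /-- Poincaré duality -/
  duality : X ≅ Xᘁ ⊗ T
  /-- the tautological classes `g_k(γ)` -/
  g : ℕ → Coh F → H.obj X
  g_mem : ∀ k γ, g k γ ∈ fromB H B X
  /-- the `χ`-parts of the cohomology as quotients of twisted Fock spaces -/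
  J : (Fin 4 → ZMod N) → Fock F →ₗ[F] H.obj X
  J_G : ∀ χ k γ, ∀ v ∈ twisted F (addOrderOf χ) (N / addOrderOf χ),
    J χ (G (addOrderOf χ) (N / addOrderOf χ) k γ v) = cup H mul (g k γ) (J χ v)
  J_span : ⨆ χ, (twisted F (addOrderOf χ) (N / addOrderOf χ)).map (J χ) = ⊤
  theta_mem : ∀ χ, J χ (theta F (addOrderOf χ) (N / addOrderOf χ)) ∈ fromB H B X

end

end Pool.Agent.KMN
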