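import Pool.Agent.KMN.Mot

/-!
# KMN-Onto: one morphism is enough

Choose a pair `(M, f)` with maximal range; biproducts show that this range contains all the others.
-/

namespace Pool.Agent.KMN

open CategoryTheory MonoidalCategory Limits

universe v u w

private theorem onto_range_le {C : Type u} [Category.{v} C] {F : Type w} [Field F]
    (H : C ⥤ ModuleCat.{w} F) {M N X : C} (i : M ⟶ N) (g : N ⟶ X) (f : M ⟶ X) (h : i ≫ g = f) :
    LinearMap.range (H.map f).hom ≤ LinearMap.range (H.map g).hom := by
  rw [← h, H.map_comp, ModuleCat.hom_comp]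
  exact LinearMap.range_comp_le_range _ _

theorem exists_onto {C : Type u} [Category.{v} C] [Preadditive C] [HasBinaryBiproducts C]
    [MonoidalCategory C] [RightRigidCategory C] {F : Type w} [Field F]
    (H : C ⥤ ModuleCat.{w} F) (B X : C) [FiniteDimensional F (H.obj X)]
    (h : fromB H B X = ⊤) :
    ∃ (M : C) (_ : Thick B M) (f : M ⟶ X), Function.Surjective (H.map f).hom := by
  obtain ⟨R, ⟨M, hM, f, rfl⟩, hmax⟩ := WellFounded.has_min
    (wellFounded_gt (α := Submodule F (H.obj X)))
    {R : Submodule F (H.obj X) | ∃ (M : C) (_ : Thick B M) (f : M ⟶ X),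
      R = LinearMap.range (H.map f).hom} ⟨_, B, Thick.base, 0, rfl⟩
  refine ⟨M, hM, f, ?_⟩
  rw [← LinearMap.range_eq_top, ← top_le_iff, ← h]
  unfold fromB
  refine iSup_le fun M' => iSup_le fun hM' => iSup_le fun f' => ?_
  have h1 := onto_range_le H biprod.inl (biprod.desc f f') f (biprod.inl_desc f f')
  have h2 := onto_range_le H biprod.inr (biprod.desc f f') f' (biprod.inr_desc f f')
  have h3 := hmax _ ⟨M ⊞ M', Thick.sum M M' hM hM', biprod.desc f f', rfl⟩
  have h4 : LinearMap.range (H.map f).hom = LinearMap.range (H.map (biprod.desc f f')).hom := by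
    by_contra hne
    exact h3 (lt_of_le_of_ne h1 hne)
  rw [h4]
  exact h2

end Pool.Agent.KMN
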