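import Pool.Agent.KMN.Mot

/-!
# KMN-Retract: the retract lemma

The section is `g ≫ k`: after `H` the map `f` is surjective and `g` is injective, so both can be cancelled.
-/

namespace Pool.Agent.KMN

open CategoryTheory

universe v u w

theorem retract_of_regular {C : Type u} [Category.{v} C] {F : Type w} [Field F]
    (H : C ⥤ ModuleCat.{w} F) [H.Faithful] {M X M' : C} (f : M ⟶ X) (g : X ⟶ M')
    (k : M' ⟶ M) (hk : (f ≫ g) ≫ k ≫ (f ≫ g) = f ≫ g)
    (hf : Function.Surjective (H.map f).hom) (hg : Function.Injective (H.map g).hom) :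
    ∃ (i : X ⟶ M) (p : M ⟶ X), i ≫ p = 𝟙 X := by
  refine ⟨g ≫ k, f, H.map_injective ?_⟩
  apply ModuleCat.hom_ext
  apply LinearMap.ext
  intro x
  obtain ⟨m, rfl⟩ := hf x
  apply hg
  have h1 := congrArg (fun h => (H.map h).hom m) hk
  simp only [Functor.map_comp, ModuleCat.hom_comp, LinearMap.comp_apply] at h1
  rw [CategoryTheory.Functor.map_id]
  simp only [Functor.map_comp, ModuleCat.hom_comp, LinearMap.comp_apply, ModuleCat.hom_id,
    LinearMap.id_apply]
  exact h1

end Pool.Agent.KMN
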