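import Pool.Agent.KMN.Gen
import Pool.Agent.KMN.Retract
import Pool.Agent.KMN.Onto
import Pool.Agent.KMN.CupMem
import Pool.Agent.KMN.DualInj

/-!
# Project KMN: the conclusion for motives
-/

namespace Pool.Agent.KMN

open CategoryTheory MonoidalCategory Limits

universe v u w

theorem fromB_eq_top {C : Type u} [Category.{v} C] [Preadditive C] [HasBinaryBiproducts C]
    [MonoidalCategory C] [RightRigidCategory C] {F : Type w} [Field F] [CharZero F]
    (H : C ⥤ ModuleCat.{w} F) [H.Monoidal] (B X : C) (N : ℕ) (hN : 0 < N)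
    (K : KummerMotive H B X N) : fromB H B X = ⊤ := by
  haveI : NeZero N := ⟨hN.ne'⟩
  rw [eq_top_iff, ← K.J_span]
  refine iSup_le fun χ => ?_
  rw [Submodule.map_le_iff_le_comap]
  refine generation _ _ (addOrderOf_pos χ) _ (K.theta_mem χ) fun k γ v hv hP => ?_
  rw [Submodule.mem_comap, K.J_G χ k γ v hv]
  exact cup_mem H B K.mul _ _ (K.g_mem k γ) hP

theorem thick_of_kummer {C : Type u} [Category.{v} C] [Preadditive C] [HasBinaryBiproducts C]
    [MonoidalCategory C] [RightRigidCategory C] {F : Type w} [Field F] [CharZero F]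
    (H : C ⥤ ModuleCat.{w} F) [H.Monoidal] [H.Faithful] (B X : C) [FiniteDimensional F (H.obj X)]
    (reg : ∀ M M' : C, Thick B M → Thick B M' → ∀ f : M ⟶ M', ∃ g : M' ⟶ M, f ≫ g ≫ f = f)
    (N : ℕ) (hN : 0 < N) (K : KummerMotive H B X N) : Thick B X := by
  obtain ⟨M, hM, f, hf⟩ := exists_onto H B X (fromB_eq_top H B X N hN K)
  let g : X ⟶ Mᘁ ⊗ K.T := K.duality.hom ≫ (fᘁ) ▷ K.T
  have hT : Thick B (Mᘁ ⊗ K.T) := Thick.tensor _ _ (Thick.dual M hM) K.thick_T
  have hg : Function.Injective (H.map g).hom := by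
    have h1 : Function.Injective (H.map K.duality.hom).hom :=
      ((ModuleCat.mono_iff_injective _).1 inferInstance)
    have h2 := whisker_injective H (fᘁ) K.T (dual_injective H f hf)
    rw [Functor.map_comp, ModuleCat.hom_comp, LinearMap.coe_comp]
    exact h2.comp h1
  obtain ⟨k, hk⟩ := reg M (Mᘁ ⊗ K.T) hM hT (f ≫ g)
  obtain ⟨i, p, hip⟩ := retract_of_regular H f g k hk hf hg
  exact Thick.summand X M i p hip hM

end Pool.Agent.KMN
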