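import Pool.Agent.KMN.Fock

/-!
# KMN-Rel: the Heisenberg relations in the concrete Fock space

Everything is checked on the monomials, by the parities of `I` and `J` and the signs `before`.
-/

namespace Pool.Agent.KMN

open Finset

variable {F : Type*} [Field F]

/-- The super sign. -/
def sgn (I J : Finset (Fin 4)) : ℤ := if Odd I.card ∧ Odd J.card then -1 else 1

private theorem rl_place_inj {p p' : Vr} (h : place p = place p') : p = p' := by
  obtain ⟨l, I⟩ := p
  obtain ⟨l', I'⟩ := p'
  have h1 : ∀ I : Finset (Fin 4), ∑ i ∈ I, 2 ^ (i : ℕ) < 16 := by decide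
  have h2 : ∀ I J : Finset (Fin 4), ∑ i ∈ I, 2 ^ (i : ℕ) = ∑ i ∈ J, 2 ^ (i : ℕ) → I = J := by
    decide
  have h3 := h1 I
  have h4 := h1 I'
  have h5 : 16 * l + ∑ i ∈ I, 2 ^ (i : ℕ) = 16 * l' + ∑ i ∈ I', 2 ^ (i : ℕ) := h
  have h6 : l = l' := by omega
  have h7 : ∑ i ∈ I, 2 ^ (i : ℕ) = ∑ i ∈ I', 2 ^ (i : ℕ) := by omega
  rw [h6, h2 I I' h7]

private theorem rl_ins_lt {p p' : Vr} {T : Finset Vr} (h : place p' < place p) (hp : p' ∉ T) :
    before p (insert p' T) = before p T + 1 := by
  unfold before
  rw [Finset.filter_insert, if_pos h, Finset.card_insert_of_notMem]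
  exact fun h1 => hp (Finset.mem_filter.1 h1).1

private theorem rl_ins_ge {p p' : Vr} {T : Finset Vr} (h : ¬ place p' < place p) :
    before p (insert p' T) = before p T := by
  unfold before
  rw [Finset.filter_insert, if_neg h]

private theorem rl_era_lt {p p' : Vr} {T : Finset Vr} (h : place p' < place p) (hp : p' ∈ T) :
    before p (T.erase p') + 1 = before p T := by
  rw [← rl_ins_lt h (Finset.notMem_erase p' T), Finset.insert_erase hp]

private theorem rl_era_ge {p p' : Vr} {T : Finset Vr} (h : ¬ place p' < place p) :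
    before p (T.erase p') = before p T := by
  by_cases hp : p' ∈ T
  · rw [← rl_ins_ge h (T := T.erase p'), Finset.insert_erase hp]
  · rw [Finset.erase_eq_of_notMem hp]

private theorem rl_cr_even {l : ℕ} {I : Finset (Fin 4)} (h : Even I.card) (c : Mon) :
    (cr l I : Module.End F (Fock F)) (Finsupp.single c 1) =
      Finsupp.single (c.1 + Finsupp.single (l, I) 1, c.2) 1 := by
  rw [cr, Finsupp.linearCombination_single, one_smul, if_pos h]

private theorem rl_cr_mem {l : ℕ} {I : Finset (Fin 4)} (h : ¬ Even I.card) {c : Mon}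
    (hm : (l, I) ∈ c.2) :
    (cr l I : Module.End F (Fock F)) (Finsupp.single c 1) = 0 := by
  rw [cr, Finsupp.linearCombination_single, one_smul, if_neg h, if_pos hm]

private theorem rl_cr_not {l : ℕ} {I : Finset (Fin 4)} (h : ¬ Even I.card) {c : Mon}
    (hm : (l, I) ∉ c.2) :
    (cr l I : Module.End F (Fock F)) (Finsupp.single c 1) =
      ((-1) ^ before (l, I) c.2 : F) • Finsupp.single (c.1, insert (l, I) c.2) 1 := by
  rw [cr, Finsupp.linearCombination_single, one_smul, if_neg h, if_neg hm, Finsupp.smul_single_one]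

private theorem rl_der_even {l : ℕ} {I : Finset (Fin 4)} (h : Even I.card) (c : Mon) :
    (der l I : Module.End F (Fock F)) (Finsupp.single c 1) =
      (c.1 (l, I) : F) • Finsupp.single (c.1 - Finsupp.single (l, I) 1, c.2) 1 := by
  rw [der, Finsupp.linearCombination_single, one_smul, if_pos h, Finsupp.smul_single_one]

private theorem rl_der_mem {l : ℕ} {I : Finset (Fin 4)} (h : ¬ Even I.card) {c : Mon}
    (hm : (l, I) ∈ c.2) :
    (der l I : Module.End F (Fock F)) (Finsupp.single c 1) =
      ((-1) ^ before (l, I) c.2 : F) • Finsupp.single (c.1, c.2.erase (l, I)) 1 := by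
  rw [der, Finsupp.linearCombination_single, one_smul, if_neg h, if_pos hm, Finsupp.smul_single_one]

private theorem rl_der_not {l : ℕ} {I : Finset (Fin 4)} (h : ¬ Even I.card) {c : Mon}
    (hm : (l, I) ∉ c.2) :
    (der l I : Module.End F (Fock F)) (Finsupp.single c 1) = 0 := by
  rw [der, Finsupp.linearCombination_single, one_smul, if_neg h, if_neg hm]

private theorem rl_ext {f g : Module.End F (Fock F)}
    (h : ∀ c : Mon, f (Finsupp.single c 1) = g (Finsupp.single c 1)) : f = g :=
  Finsupp.lhom_ext' fun c => LinearMap.ext_ring (h c)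

private theorem rl_sgn_one {I J : Finset (Fin 4)} (h : Even I.card ∨ Even J.card) : sgn I J = 1 := by
  unfold sgn
  rw [if_neg]
  rintro ⟨h1, h2⟩
  rcases h with h | h
  · exact (Nat.not_even_iff_odd.2 h1) h
  · exact (Nat.not_even_iff_odd.2 h2) h

private theorem rl_sgn_neg {I J : Finset (Fin 4)} (h : ¬ Even I.card) (h' : ¬ Even J.card) :
    sgn I J = -1 := by
  unfold sgn
  rw [if_pos ⟨Nat.not_even_iff_odd.1 h, Nat.not_even_iff_odd.1 h'⟩]

theorem cr_cr (l l' : ℕ) (I J : Finset (Fin 4)) :
    (cr l I * cr l' J : Module.End F (Fock F)) = (sgn I J : F) • (cr l' J * cr l I) := by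
  refine rl_ext fun c => ?_
  rw [LinearMap.smul_apply, Module.End.mul_apply, Module.End.mul_apply]
  by_cases hI : Even I.card
  · rw [rl_sgn_one (Or.inl hI), Int.cast_one, one_smul, rl_cr_even hI]
    by_cases hJ : Even J.card
    · rw [rl_cr_even hJ, rl_cr_even hI, rl_cr_even hJ, add_right_comm]
    · by_cases hm : (l', J) ∈ c.2
      · rw [rl_cr_mem hJ hm, map_zero, rl_cr_mem hJ]
        exact hm
      · rw [rl_cr_not hJ hm, map_smul, rl_cr_even hI, rl_cr_not hJ]
        exact hm
  · by_cases hJ : Even J.card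
    · rw [rl_sgn_one (Or.inr hJ), Int.cast_one, one_smul, rl_cr_even hJ]
      by_cases hm : (l, I) ∈ c.2
      · rw [rl_cr_mem hI hm, map_zero, rl_cr_mem hI]
        exact hm
      · rw [rl_cr_not hI hm, map_smul, rl_cr_even hJ, rl_cr_not hI]
        exact hm
    · rw [rl_sgn_neg hI hJ]
      by_cases h1 : (l, I) ∈ c.2
      · rw [rl_cr_mem hI h1, map_zero, smul_zero]
        by_cases h2 : (l', J) ∈ c.2
        · rw [rl_cr_mem hJ h2, map_zero]
        · rw [rl_cr_not hJ h2, map_smul, rl_cr_mem hI (c := (c.1, insert (l', J) c.2))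
            (Finset.mem_insert_of_mem h1), smul_zero]
      · rw [rl_cr_not hI h1, map_smul]
        by_cases h2 : (l', J) ∈ c.2
        · rw [rl_cr_mem hJ h2, map_zero, rl_cr_mem hJ (c := (c.1, insert (l, I) c.2))
            (Finset.mem_insert_of_mem h2), smul_zero, smul_zero]
        · rw [rl_cr_not hJ h2, map_smul]
          by_cases h3 : ((l, I) : Vr) = (l', J)
          · rw [rl_cr_mem hI (c := (c.1, insert (l', J) c.2)) (by
              rw [← h3]; exact Finset.mem_insert_self _ _),
              rl_cr_mem hJ (c := (c.1, insert (l, I) c.2)) (by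
              rw [h3]; exact Finset.mem_insert_self _ _), smul_zero, smul_zero, smul_zero]
          · rw [rl_cr_not hI (c := (c.1, insert (l', J) c.2)) (by
              rw [Finset.mem_insert]; exact fun h => h.elim h3 h1),
              rl_cr_not hJ (c := (c.1, insert (l, I) c.2)) (by
              rw [Finset.mem_insert]; exact fun h => h.elim (fun h => h3 h.symm) h2)]
            show ((-1) ^ before (l', J) c.2 : F) • ((-1) ^ before (l, I) (insert (l', J) c.2) : F) •
              Finsupp.single (c.1, insert (l, I) (insert (l', J) c.2)) 1 =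
              ((-1 : ℤ) : F) • ((-1) ^ before (l, I) c.2 : F) •
              ((-1) ^ before (l', J) (insert (l, I) c.2) : F) •
              Finsupp.single (c.1, insert (l', J) (insert (l, I) c.2)) 1
            rw [Finset.insert_comm (l, I), smul_smul, smul_smul, smul_smul]
            congr 1
            have h4 : place (l, I) ≠ place (l', J) := fun h => h3 (rl_place_inj h)
            rcases lt_or_gt_of_ne h4 with h5 | h5
            · rw [rl_ins_ge (not_lt.2 h5.le), rl_ins_lt h5 h1]
              push_cast
              ring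
            · rw [rl_ins_ge (not_lt.2 h5.le), rl_ins_lt h5 h2]
              push_cast
              ring

theorem der_cr (l l' : ℕ) (J I : Finset (Fin 4)) :
    (der l J * cr l' I : Module.End F (Fock F)) = (sgn J I : F) • (cr l' I * der l J) +
      (if l = l' ∧ I = J then (1 : F) else 0) • 1 := by
  refine rl_ext fun c => ?_
  rw [LinearMap.add_apply, LinearMap.smul_apply, LinearMap.smul_apply, Module.End.mul_apply,
    Module.End.mul_apply, Module.End.one_apply]
  by_cases hJ : Even J.card
  · rw [rl_sgn_one (Or.inl hJ), Int.cast_one, one_smul, rl_der_even hJ, map_smul]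
    by_cases hI : Even I.card
    · rw [rl_cr_even hI, rl_cr_even hI, rl_der_even hJ]
      show (((c.1 + Finsupp.single (l', I) 1 : Vr →₀ ℕ) (l, J) : ℕ) : F) •
        Finsupp.single (c.1 + Finsupp.single (l', I) 1 - Finsupp.single (l, J) 1, c.2) (1 : F) =
        (c.1 (l, J) : F) •
        Finsupp.single (c.1 - Finsupp.single (l, J) 1 + Finsupp.single (l', I) 1, c.2) (1 : F) + _
      by_cases h3 : l = l' ∧ I = J
      · obtain ⟨rfl, rfl⟩ := h3
        rw [if_pos ⟨rfl, rfl⟩, one_smul, Finsupp.add_apply, Finsupp.single_eq_same, Nat.cast_add,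
          Nat.cast_one, add_smul, one_smul, add_tsub_cancel_right]
        by_cases h4 : c.1 (l, I) = 0
        · rw [h4, Nat.cast_zero, zero_smul, zero_smul]
        · rw [tsub_add_cancel_of_le]
          rw [Finsupp.single_le_iff]
          exact Nat.one_le_iff_ne_zero.2 h4
      · have h5 : ((l', I) : Vr) ≠ (l, J) := fun h => h3 ⟨(congrArg Prod.fst h).symm,
          congrArg Prod.snd h⟩
        rw [if_neg h3, zero_smul, add_zero, Finsupp.add_apply, Finsupp.single_eq_of_ne h5.symm,
          add_zero]
        by_cases h4 : c.1 (l, J) = 0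
        · rw [h4, Nat.cast_zero, zero_smul, zero_smul]
        · rw [tsub_add_eq_add_tsub]
          rw [Finsupp.single_le_iff]
          exact Nat.one_le_iff_ne_zero.2 h4
    · have h3 : ¬ (l = l' ∧ I = J) := fun h => hI (by rw [h.2]; exact hJ)
      rw [if_neg h3, zero_smul, add_zero]
      by_cases hm : (l', I) ∈ c.2
      · rw [rl_cr_mem hI hm, map_zero, rl_cr_mem hI (c := (c.1 - Finsupp.single (l, J) 1, c.2)) hm,
          smul_zero]
      · rw [rl_cr_not hI hm, map_smul, rl_der_even hJ,
          rl_cr_not hI (c := (c.1 - Finsupp.single (l, J) 1, c.2)) hm, smul_comm]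
  · by_cases hI : Even I.card
    · have h3 : ¬ (l = l' ∧ I = J) := fun h => hJ (by rw [← h.2]; exact hI)
      rw [if_neg h3, zero_smul, add_zero, rl_sgn_one (Or.inr hI), Int.cast_one, one_smul,
        rl_cr_even hI]
      by_cases hm : (l, J) ∈ c.2
      · rw [rl_der_mem hJ hm, map_smul, rl_cr_even hI,
          rl_der_mem hJ (c := (c.1 + Finsupp.single (l', I) 1, c.2)) hm]
      · rw [rl_der_not hJ hm, map_zero,
          rl_der_not hJ (c := (c.1 + Finsupp.single (l', I) 1, c.2)) hm]
    · rw [rl_sgn_neg hJ hI]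
      by_cases h3 : l = l' ∧ I = J
      · obtain ⟨rfl, rfl⟩ := h3
        rw [if_pos ⟨rfl, rfl⟩, one_smul]
        by_cases hm : (l, I) ∈ c.2
        · rw [rl_cr_mem hI hm, map_zero, rl_der_mem hI hm, map_smul,
            rl_cr_not hI (c := (c.1, c.2.erase (l, I))) (Finset.notMem_erase _ _)]
          show 0 = ((-1 : ℤ) : F) • ((-1) ^ before (l, I) c.2 : F) •
            ((-1) ^ before (l, I) (c.2.erase (l, I)) : F) •
            Finsupp.single (c.1, insert (l, I) (c.2.erase (l, I))) 1 + Finsupp.single c 1
          rw [rl_era_ge (lt_irrefl _), Finset.insert_erase hm, smul_smul, smul_smul,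
            Int.cast_neg, Int.cast_one, mul_assoc, ← pow_add, ← two_mul, pow_mul, neg_one_sq, one_pow,
            mul_one, neg_one_smul]
          exact (neg_add_cancel _).symm
        · rw [rl_cr_not hI hm, map_smul, rl_der_not hI hm, map_zero, smul_zero, zero_add,
            rl_der_mem hI (c := (c.1, insert (l, I) c.2)) (Finset.mem_insert_self _ _)]
          show ((-1) ^ before (l, I) c.2 : F) • ((-1) ^ before (l, I) (insert (l, I) c.2) : F) •
            Finsupp.single (c.1, (insert (l, I) c.2).erase (l, I)) 1 = Finsupp.single c 1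
          rw [rl_ins_ge (lt_irrefl _), Finset.erase_insert hm, smul_smul, ← pow_add, ← two_mul,
            pow_mul, neg_one_sq, one_pow, one_smul]
      · have h5 : ((l', I) : Vr) ≠ (l, J) := fun h => h3 ⟨(congrArg Prod.fst h).symm,
          congrArg Prod.snd h⟩
        rw [if_neg h3, zero_smul, add_zero]
        by_cases h1 : (l, J) ∈ c.2
        · rw [rl_der_mem hJ h1, map_smul]
          by_cases h2 : (l', I) ∈ c.2
          · rw [rl_cr_mem hI h2, map_zero, rl_cr_mem hI (c := (c.1, c.2.erase (l, J)))
              (Finset.mem_erase.2 ⟨h5, h2⟩), smul_zero, smul_zero]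
          · rw [rl_cr_not hI h2, map_smul, rl_der_mem hJ (c := (c.1, insert (l', I) c.2))
              (Finset.mem_insert_of_mem h1), rl_cr_not hI (c := (c.1, c.2.erase (l, J)))
              (fun h => h2 (Finset.mem_erase.1 h).2)]
            show ((-1) ^ before (l', I) c.2 : F) • ((-1) ^ before (l, J) (insert (l', I) c.2) : F) •
              Finsupp.single (c.1, (insert (l', I) c.2).erase (l, J)) 1 =
              ((-1 : ℤ) : F) • ((-1) ^ before (l, J) c.2 : F) •
              ((-1) ^ before (l', I) (c.2.erase (l, J)) : F) •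
              Finsupp.single (c.1, insert (l', I) (c.2.erase (l, J))) 1
            rw [Finset.erase_insert_of_ne h5, smul_smul, smul_smul, smul_smul]
            congr 1
            have h4 : place (l', I) ≠ place (l, J) := fun h => h5 (rl_place_inj h)
            rcases lt_or_gt_of_ne h4 with h6 | h6
            · rw [rl_ins_lt h6 h2, rl_era_ge (not_lt.2 h6.le)]
              push_cast
              ring
            · rw [rl_ins_ge (not_lt.2 h6.le), ← rl_era_lt h6 h1]
              push_cast
              ring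
        · rw [rl_der_not hJ h1, map_zero, smul_zero]
          by_cases h2 : (l', I) ∈ c.2
          · rw [rl_cr_mem hI h2, map_zero]
          · rw [rl_cr_not hI h2, map_smul, rl_der_not hJ (c := (c.1, insert (l', I) c.2)) (by
              rw [Finset.mem_insert]; exact fun h => h.elim (fun h => h5 h.symm) h1), smul_zero]

theorem der_vac (l : ℕ) (J : Finset (Fin 4)) : (der l J : Module.End F (Fock F)) vac = 0 := by
  unfold vac
  by_cases hJ : Even J.card
  · rw [rl_der_even hJ]
    show (((0 : Vr →₀ ℕ) (l, J) : ℕ) : F) • _ = (0 : Fock F)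
    rw [Finsupp.zero_apply, Nat.cast_zero, zero_smul]
  · exact rl_der_not hJ (Finset.notMem_empty _)

private theorem rel_sgn_compl (J I : Finset (Fin 4)) : sgn Jᶜ I = sgn J I := by
  have h : Odd Jᶜ.card ↔ Odd J.card := by
    revert J
    decide
  simp only [sgn, h]

theorem an_cr (l l' : ℕ) (J I : Finset (Fin 4)) :
    (an l J * cr l' I : Module.End F (Fock F)) = (sgn J I : F) • (cr l' I * an l J) +
      (if l = l' ∧ I = Jᶜ then -(l : F) * (eps J Jᶜ : F) else 0) • 1 := by
  have key : (-(l : F) * (eps J Jᶜ : F)) •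
      ((if l = l' ∧ I = Jᶜ then (1 : F) else 0) • (1 : Module.End F (Fock F))) =
      (if l = l' ∧ I = Jᶜ then -(l : F) * (eps J Jᶜ : F) else 0) • 1 := by
    split_ifs
    · rw [one_smul]
    · rw [zero_smul, smul_zero]
  rw [an, smul_mul_assoc, der_cr, rel_sgn_compl, mul_smul_comm, smul_add, key,
    smul_comm (-(l : F) * (eps J Jᶜ : F)) (sgn J I : F)]

theorem an_vac (l : ℕ) (J : Finset (Fin 4)) : (an l J : Module.End F (Fock F)) vac = 0 := by
  rw [an, LinearMap.smul_apply, der_vac, smul_zero]

theorem q_neg (l : ℕ) (hl : 0 < l) (α : Coh F) :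
    q (-(l : ℤ)) α = ∑ I, α I • (cr l I : Module.End F (Fock F)) := by
  rw [q]
  refine Finset.sum_congr rfl fun I _ => ?_
  rw [if_pos (by omega), Int.natAbs_neg, Int.natAbs_natCast]

theorem q_pos (l : ℕ) (α : Coh F) :
    q (l : ℤ) α = ∑ I, α I • (an l I : Module.End F (Fock F)) := by
  rw [q]
  refine Finset.sum_congr rfl fun I _ => ?_
  rw [if_neg (by omega), Int.natAbs_natCast]

private theorem rel_sum_ee (K : Finset (Fin 4)) (f : Finset (Fin 4) → Module.End F (Fock F)) :
    ∑ I, (ee K : Coh F) I • f I = f K := by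
  rw [Finset.sum_eq_single K]
  · rw [ee, Pi.single_eq_same, one_smul]
  · intro J _ hJ
    rw [ee, Pi.single_eq_of_ne hJ, zero_smul]
  · intro h
    exact absurd (Finset.mem_univ K) h

theorem q_neg_ee (l : ℕ) (hl : 0 < l) (K : Finset (Fin 4)) :
    q (-(l : ℤ)) (ee K) = (cr l K : Module.End F (Fock F)) := by
  rw [q_neg l hl, rel_sum_ee]

theorem q_pos_ee (l : ℕ) (K : Finset (Fin 4)) :
    q (l : ℤ) (ee K) = (an l K : Module.End F (Fock F)) := by
  rw [q_pos, rel_sum_ee]

end Pool.Agent.KMN
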