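import Pool.Agent.KMN.MotMain
import Pool.Agent.KMN.Fin

/-!
# Project KMN: the sign conjecture

`ev M` is the projector of the cohomology `H(M)` onto its even part; it is natural in `M` and
compatible with tensor products. `CPlus P M`: the projector is induced by a morphism `M ⟶ M`
(an algebraic correspondence).
-/

namespace Pool.Agent.KMN

open CategoryTheory MonoidalCategory Limits

universe v u w v' u'

section Defs

variable {C : Type u} [Category.{v} C] [MonoidalCategory C] {F : Type w} [Field F]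

/-- The decomposition of the cohomology into an even and an odd part: `ev M` is the projector onto
the even part of `H(M)`. -/
structure Parity (H : C ⥤ ModuleCat.{w} F) [H.Monoidal] where
  ev : ∀ M : C, H.obj M ⟶ H.obj M
  idem : ∀ M, ev M ≫ ev M = ev M
  nat : ∀ {M M' : C} (f : M ⟶ M'), H.map f ≫ ev M' = ev M ≫ H.map f
  unit : ev (𝟙_ C) = 𝟙 _
  tensor : ∀ M M' : C, Functor.LaxMonoidal.μ H M M' ≫ ev (M ⊗ M') =
    (ev M ⊗ₘ ev M' + (𝟙 _ - ev M) ⊗ₘ (𝟙 _ - ev M')) ≫ Functor.LaxMonoidal.μ H M M'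

/-- `C⁺`: the even projector is induced by an endomorphism. -/
def CPlus {H : C ⥤ ModuleCat.{w} F} [H.Monoidal] (P : Parity H) (M : C) : Prop :=
  ∃ e : M ⟶ M, H.map e = P.ev M

end Defs

section Pairing

private theorem hz1' {C : Type u} [Category.{v} C] [MonoidalCategory C] {D : Type u'} [Category.{v'} D]
    [MonoidalCategory D] (H : C ⥤ D) [H.Monoidal] (X Y : C) [ExactPairing X Y] :
    H.obj Y ◁ (Functor.LaxMonoidal.ε H ≫ H.map (η_ X Y) ≫ Functor.OplaxMonoidal.δ H X Y) ≫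
      (α_ (H.obj Y) (H.obj X) (H.obj Y)).inv ≫
      (Functor.LaxMonoidal.μ H Y X ≫ H.map (ε_ X Y) ≫ Functor.OplaxMonoidal.η H) ▷ H.obj Y =
      (ρ_ (H.obj Y)).hom ≫ (λ_ (H.obj Y)).inv := by
  have h := congrArg H.map (ExactPairing.coevaluation_evaluation X Y)
  rw [H.map_comp, H.map_comp, H.map_comp, Functor.Monoidal.map_whiskerLeft, Functor.Monoidal.map_whiskerRight,
    Functor.Monoidal.map_associator_inv, Functor.Monoidal.map_rightUnitor,
    Functor.Monoidal.map_leftUnitor_inv] at h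
  simp only [Category.assoc, Functor.Monoidal.μ_δ_assoc] at h
  have h2 := congrArg (fun f => (H.obj Y ◁ Functor.LaxMonoidal.ε H ≫ Functor.LaxMonoidal.μ H Y (𝟙_ C)) ≫ f ≫
    (Functor.OplaxMonoidal.δ H (𝟙_ C) Y ≫ Functor.OplaxMonoidal.η H ▷ H.obj Y)) h
  simp only [Category.assoc, Functor.Monoidal.μ_δ_assoc, Functor.Monoidal.whiskerLeft_ε_η_assoc,
    Functor.Monoidal.whiskerRight_ε_η, Category.comp_id] at h2
  simp only [MonoidalCategory.whiskerLeft_comp, comp_whiskerRight, Category.assoc]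
  exact h2

private theorem hz2' {C : Type u} [Category.{v} C] [MonoidalCategory C] {D : Type u'} [Category.{v'} D]
    [MonoidalCategory D] (H : C ⥤ D) [H.Monoidal] (X Y : C) [ExactPairing X Y] :
    (Functor.LaxMonoidal.ε H ≫ H.map (η_ X Y) ≫ Functor.OplaxMonoidal.δ H X Y) ▷ H.obj X ≫
      (α_ (H.obj X) (H.obj Y) (H.obj X)).hom ≫
      H.obj X ◁ (Functor.LaxMonoidal.μ H Y X ≫ H.map (ε_ X Y) ≫ Functor.OplaxMonoidal.η H) =
      (λ_ (H.obj X)).hom ≫ (ρ_ (H.obj X)).inv := by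
  have h := congrArg H.map (ExactPairing.evaluation_coevaluation X Y)
  rw [H.map_comp, H.map_comp, H.map_comp, Functor.Monoidal.map_whiskerLeft, Functor.Monoidal.map_whiskerRight,
    Functor.Monoidal.map_associator, Functor.Monoidal.map_leftUnitor,
    Functor.Monoidal.map_rightUnitor_inv] at h
  simp only [Category.assoc, Functor.Monoidal.μ_δ_assoc] at h
  have h2 := congrArg (fun f => (Functor.LaxMonoidal.ε H ▷ H.obj X ≫ Functor.LaxMonoidal.μ H (𝟙_ C) X) ≫ f ≫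
    (Functor.OplaxMonoidal.δ H X (𝟙_ C) ≫ H.obj X ◁ Functor.OplaxMonoidal.η H)) h
  simp only [Category.assoc, Functor.Monoidal.μ_δ_assoc, Functor.Monoidal.whiskerRight_ε_η_assoc,
    Functor.Monoidal.whiskerLeft_ε_η, Category.comp_id] at h2
  simp only [MonoidalCategory.whiskerLeft_comp, comp_whiskerRight, Category.assoc]
  exact h2

@[reducible] private noncomputable def hP' {C : Type u} [Category.{v} C] [MonoidalCategory C] {D : Type u'}
    [Category.{v'} D] [MonoidalCategory D] (H : C ⥤ D) [H.Monoidal] (X : C) [HasRightDual X] :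
    HasRightDual (H.obj X) where
  rightDual := H.obj Xᘁ
  exact :=
    { coevaluation' := Functor.LaxMonoidal.ε H ≫ H.map (η_ X Xᘁ) ≫ Functor.OplaxMonoidal.δ H X Xᘁ
      evaluation' := Functor.LaxMonoidal.μ H Xᘁ X ≫ H.map (ε_ X Xᘁ) ≫ Functor.OplaxMonoidal.η H
      coevaluation_evaluation' := hz1' H X Xᘁ
      evaluation_coevaluation' := hz2' H X Xᘁ }

/-- the pairing is non-degenerate -/
private theorem nondeg {D : Type u'} [Category.{v'} D] [MonoidalCategory D] {V Y : D}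
    [HasRightDual Y] (u u' : V ⟶ Yᘁ)
    (h : u ▷ Y ≫ ε_ Y Yᘁ = u' ▷ Y ≫ ε_ Y Yᘁ) : u = u' := by
  have h1 := tensorRightHomEquiv_whiskerRight_comp_evaluation u
  have h2 := tensorRightHomEquiv_whiskerRight_comp_evaluation u'
  rw [h, h2] at h1
  exact ((cancel_mono _).mp h1).symm

variable {C : Type u} [Category.{v} C] [MonoidalCategory C] {F : Type w} [Field F]
  (H : C ⥤ ModuleCat.{w} F) [H.Monoidal]

/-- the pairing `H(Xᘁ) ⊗ H(X) ⟶ H(𝟙)` -/
private noncomputable def pr (X : C) [HasRightDual X] : H.obj Xᘁ ⊗ H.obj X ⟶ H.obj (𝟙_ C) :=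
  Functor.LaxMonoidal.μ H Xᘁ X ≫ H.map (ε_ X Xᘁ)

private theorem pr_nondeg (X : C) [HasRightDual X] {V : ModuleCat.{w} F} (u u' : V ⟶ H.obj Xᘁ)
    (h : u ▷ H.obj X ≫ pr H X = u' ▷ H.obj X ≫ pr H X) : u = u' := by
  let _ := hP' H X
  refine nondeg (Y := H.obj X) u u' ?_
  have h1 : (ε_ (H.obj X) (H.obj X)ᘁ : (H.obj X)ᘁ ⊗ H.obj X ⟶ 𝟙_ (ModuleCat.{w} F)) =
      pr H X ≫ Functor.OplaxMonoidal.η H := by
    unfold pr
    rw [Category.assoc]
    rfl
  rw [h1]
  have h2 := congrArg (fun g => g ≫ Functor.OplaxMonoidal.η H) h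
  simp only [Category.assoc] at h2
  exact h2

private theorem pr_dual {X Y : C} [HasRightDual X] [HasRightDual Y] (f : X ⟶ Y) :
    H.map (fᘁ) ▷ H.obj X ≫ pr H X = H.obj Yᘁ ◁ H.map f ≫ pr H Y := by
  unfold pr
  rw [← Category.assoc, Functor.LaxMonoidal.μ_natural_left, Category.assoc, ← H.map_comp,
    rightAdjointMate_comp_evaluation, ← Category.assoc, Functor.LaxMonoidal.μ_natural_right,
    Category.assoc, ← H.map_comp]

end Pairing

section Thick

variable {C : Type u} [Category.{v} C] [MonoidalCategory C] {F : Type w} [Field F]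
  {H : C ⥤ ModuleCat.{w} F} [H.Monoidal]

private theorem ev_q (P : Parity H) (M : C) : P.ev M ≫ (𝟙 _ - P.ev M) = 0 := by
  rw [Preadditive.comp_sub, Category.comp_id, P.idem, sub_self]

private theorem q_ev (P : Parity H) (M : C) : (𝟙 _ - P.ev M) ≫ P.ev M = 0 := by
  rw [Preadditive.sub_comp, Category.id_comp, P.idem, sub_self]

private theorem q_idem (P : Parity H) (M : C) :
    (𝟙 _ - P.ev M) ≫ (𝟙 _ - P.ev M) = 𝟙 _ - P.ev M := by
  rw [Preadditive.sub_comp, Category.id_comp, ev_q, sub_zero]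

private theorem q_nat (P : Parity H) {M M' : C} (f : M ⟶ M') :
    H.map f ≫ (𝟙 _ - P.ev M') = (𝟙 _ - P.ev M) ≫ H.map f := by
  rw [Preadditive.comp_sub, Preadditive.sub_comp, P.nat, Category.comp_id, Category.id_comp]

private theorem pr_ev (P : Parity H) (X : C) [HasRightDual X] :
    pr H X = (P.ev Xᘁ ⊗ₘ P.ev X) ≫ pr H X + ((𝟙 _ - P.ev Xᘁ) ⊗ₘ (𝟙 _ - P.ev X)) ≫ pr H X := by
  have h1 : pr H X ≫ P.ev (𝟙_ C) = pr H X := by rw [P.unit, Category.comp_id]
  rw [← Preadditive.add_comp]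
  conv_lhs => rw [← h1]
  unfold pr
  rw [Category.assoc, P.nat, ← Category.assoc, P.tensor, Category.assoc]

private theorem pr_adj (P : Parity H) (X : C) [HasRightDual X] :
    P.ev Xᘁ ▷ H.obj X ≫ pr H X = H.obj Xᘁ ◁ P.ev X ≫ pr H X := by
  have h1 : P.ev Xᘁ ▷ H.obj X ≫ pr H X = (P.ev Xᘁ ⊗ₘ P.ev X) ≫ pr H X := by
    conv_lhs => rw [pr_ev P X]
    rw [Preadditive.comp_add, ← Category.assoc, ← Category.assoc, ← tensorHom_id,
      tensorHom_comp_tensorHom, tensorHom_comp_tensorHom, P.idem, ev_q, Category.id_comp]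
    simp
  have h2 : H.obj Xᘁ ◁ P.ev X ≫ pr H X = (P.ev Xᘁ ⊗ₘ P.ev X) ≫ pr H X := by
    conv_lhs => rw [pr_ev P X]
    rw [Preadditive.comp_add, ← Category.assoc, ← Category.assoc, ← id_tensorHom,
      tensorHom_comp_tensorHom, tensorHom_comp_tensorHom, P.idem, ev_q, Category.id_comp]
    simp
  rw [h1, h2]

private theorem cplus_dual (P : Parity H) {X : C} [HasRightDual X] (h : CPlus P X) :
    CPlus P Xᘁ := by
  obtain ⟨e, he⟩ := h
  refine ⟨eᘁ, pr_nondeg H X _ _ ?_⟩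
  rw [pr_dual, he, pr_adj]

private theorem cplus_tensor [Preadditive C] [H.Additive] (P : Parity H) {X Y : C}
    (hX : CPlus P X) (hY : CPlus P Y) : CPlus P (X ⊗ Y) := by
  obtain ⟨e, he⟩ := hX
  obtain ⟨f, hf⟩ := hY
  refine ⟨(e ⊗ₘ f) + (𝟙 _ - e) ⊗ₘ (𝟙 _ - f), ?_⟩
  have h1 : Functor.LaxMonoidal.μ H X Y ≫ H.map ((e ⊗ₘ f) + (𝟙 _ - e) ⊗ₘ (𝟙 _ - f)) =
      Functor.LaxMonoidal.μ H X Y ≫ P.ev (X ⊗ Y) := by
    rw [P.tensor, H.map_add, Preadditive.comp_add, ← Functor.LaxMonoidal.μ_natural,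
      ← Functor.LaxMonoidal.μ_natural, H.map_sub, H.map_sub, H.map_id, H.map_id, he, hf,
      Preadditive.add_comp]
  have h2 := congrArg (fun g => Functor.OplaxMonoidal.δ H X Y ≫ g) h1
  simpa using h2

private theorem cplus_sum [Preadditive C] [HasBinaryBiproducts C] [H.Additive] (P : Parity H)
    {X Y : C} (hX : CPlus P X) (hY : CPlus P Y) : CPlus P (X ⊞ Y) := by
  obtain ⟨e, he⟩ := hX
  obtain ⟨f, hf⟩ := hY
  refine ⟨biprod.fst ≫ e ≫ biprod.inl + biprod.snd ≫ f ≫ biprod.inr, ?_⟩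
  have h1 : P.ev (X ⊞ Y) = P.ev (X ⊞ Y) ≫
      H.map (biprod.fst ≫ biprod.inl + biprod.snd ≫ biprod.inr) := by
    rw [biprod.total, H.map_id, Category.comp_id]
  rw [h1, H.map_add, H.map_add, H.map_comp, H.map_comp, H.map_comp, H.map_comp, H.map_comp,
    H.map_comp, he, hf, Preadditive.comp_add]
  congr 1
  · rw [← Category.assoc, ← Category.assoc, P.nat]
  · rw [← Category.assoc, ← Category.assoc, P.nat]

private theorem cplus_zero [Preadditive C] [H.Additive] (P : Parity H) {X : C} (h : IsZero X) :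
    CPlus P X := by
  refine ⟨𝟙 X, ?_⟩
  have h1 : (𝟙 X : X ⟶ X) = 0 := h.eq_of_src _ _
  have h2 : (𝟙 (H.obj X) : H.obj X ⟶ H.obj X) = 0 := by
    rw [← H.map_id, h1, H.map_zero]
  rw [H.map_id, ← Category.comp_id (P.ev X), h2, comp_zero]

private theorem cplus_summand (P : Parity H) {X Y : C} (i : X ⟶ Y) (p : Y ⟶ X)
    (h : i ≫ p = 𝟙 X) (hY : CPlus P Y) : CPlus P X := by
  obtain ⟨e, he⟩ := hY
  refine ⟨i ≫ e ≫ p, ?_⟩
  rw [H.map_comp, H.map_comp, he, ← P.nat, ← Category.assoc, ← H.map_comp, h, H.map_id,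
    Category.id_comp]

theorem thick_cplus [Preadditive C] [HasBinaryBiproducts C] [RightRigidCategory C] [H.Additive]
    (P : Parity H) {B M : C} (hB : CPlus P B) (hM : Thick B M) : CPlus P M := by
  induction hM with
  | base => exact hB
  | zero X h => exact cplus_zero P h
  | sum X Y _ _ hX hY => exact cplus_sum P hX hY
  | tensor X Y _ _ hX hY => exact cplus_tensor P hX hY
  | dual X _ hX => exact cplus_dual P hX
  | summand X Y i p h _ hY => exact cplus_summand P i p h hY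

end Thick

section Odd

variable {C : Type u} [Category.{v} C] [MonoidalCategory C] {F : Type w} [Field F]
  {H : C ⥤ ModuleCat.{w} F} [H.Monoidal]

private theorem range_le' {M N X : C} (i : M ⟶ N) (g : N ⟶ X) (f : M ⟶ X) (h : i ≫ g = f) :
    LinearMap.range (H.map f).hom ≤ LinearMap.range (H.map g).hom := by
  rw [← h, H.map_comp, ModuleCat.hom_comp]
  exact LinearMap.range_comp_le_range _ _

private theorem exists_range [Preadditive C] [HasBinaryBiproducts C] [RightRigidCategory C]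
    (B X : C) [FiniteDimensional F (H.obj X)] :
    ∃ (M : C) (_ : Thick B M) (f : M ⟶ X), fromB H B X ≤ LinearMap.range (H.map f).hom := by
  obtain ⟨R, ⟨M, hM, f, rfl⟩, hmax⟩ := WellFounded.has_min
    (wellFounded_gt (α := Submodule F (H.obj X)))
    {R : Submodule F (H.obj X) | ∃ (M : C) (_ : Thick B M) (f : M ⟶ X),
      R = LinearMap.range (H.map f).hom} ⟨_, B, Thick.base, 0, rfl⟩
  refine ⟨M, hM, f, ?_⟩
  unfold fromB
  refine iSup_le fun M' => iSup_le fun hM' => iSup_le fun f' => ?_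
  have h1 := range_le' (H := H) biprod.inl (biprod.desc f f') f (biprod.inl_desc f f')
  have h2 := range_le' (H := H) biprod.inr (biprod.desc f f') f' (biprod.inr_desc f f')
  have h3 := hmax _ ⟨M ⊞ M', Thick.sum M M' hM hM', biprod.desc f f', rfl⟩
  have h4 : LinearMap.range (H.map f).hom = LinearMap.range (H.map (biprod.desc f f')).hom := by
    by_contra hne
    exact h3 (lt_of_le_of_ne h1 hne)
  rw [h4]
  exact h2

private theorem q_adj (P : Parity H) (X : C) [HasRightDual X] :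
    (𝟙 _ - P.ev Xᘁ) ▷ H.obj X ≫ pr H X = H.obj Xᘁ ◁ (𝟙 _ - P.ev X) ≫ pr H X := by
  have h1 : (𝟙 _ - P.ev Xᘁ) ▷ H.obj X = 𝟙 _ - P.ev Xᘁ ▷ H.obj X := by
    rw [sub_eq_add_neg, MonoidalPreadditive.add_whiskerRight, id_whiskerRight, sub_eq_add_neg]
    congr 1
    rw [eq_neg_iff_add_eq_zero, ← MonoidalPreadditive.add_whiskerRight, neg_add_cancel,
      MonoidalPreadditive.zero_whiskerRight]
  have h2 : H.obj Xᘁ ◁ (𝟙 _ - P.ev X) = 𝟙 _ - H.obj Xᘁ ◁ P.ev X := by
    rw [sub_eq_add_neg, MonoidalPreadditive.whiskerLeft_add, MonoidalCategory.whiskerLeft_id,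
      sub_eq_add_neg]
    congr 1
    rw [eq_neg_iff_add_eq_zero, ← MonoidalPreadditive.whiskerLeft_add, neg_add_cancel,
      MonoidalPreadditive.whiskerLeft_zero]
  rw [h1, h2, Preadditive.sub_comp, Preadditive.sub_comp, pr_adj]

/-- transposes in vector spaces -/
private theorem exists_transpose (M X : C) [HasRightDual X] [HasRightDual M]
    (s : H.obj X ⟶ H.obj M) : ∃ r : H.obj Mᘁ ⟶ H.obj Xᘁ,
      r ▷ H.obj X ≫ pr H X = H.obj Mᘁ ◁ s ≫ pr H M := by
  let _ := hP' H M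
  let _ := hP' H X
  refine ⟨sᘁ, ?_⟩
  have h1 := rightAdjointMate_comp_evaluation s
  have h2 : (ε_ (H.obj X) (H.obj X)ᘁ : (H.obj X)ᘁ ⊗ H.obj X ⟶ 𝟙_ (ModuleCat.{w} F)) =
      pr H X ≫ Functor.OplaxMonoidal.η H := by
    unfold pr
    rw [Category.assoc]
    rfl
  have h3 : (ε_ (H.obj M) (H.obj M)ᘁ : (H.obj M)ᘁ ⊗ H.obj M ⟶ 𝟙_ (ModuleCat.{w} F)) =
      pr H M ≫ Functor.OplaxMonoidal.η H := by
    unfold pr
    rw [Category.assoc]
    rfl
  rw [h2, h3] at h1
  have h4 := congrArg (fun g => g ≫ Functor.LaxMonoidal.ε H) h1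
  simp only [Category.assoc, Functor.Monoidal.η_ε, Category.comp_id] at h4
  exact h4

private theorem dual_section (P : Parity H) {M X : C} [HasRightDual X] [HasRightDual M]
    (f : M ⟶ X) (s : H.obj X ⟶ H.obj M) (hs : s ≫ H.map f = 𝟙 _ - P.ev X) :
    ∃ r : H.obj Mᘁ ⟶ H.obj Xᘁ, H.map (fᘁ) ≫ r = 𝟙 _ - P.ev Xᘁ := by
  obtain ⟨r, hr⟩ := exists_transpose M X s
  refine ⟨r, pr_nondeg H X _ _ ?_⟩
  rw [comp_whiskerRight, Category.assoc, hr, ← Category.assoc, ← whisker_exchange,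
    Category.assoc, pr_dual, ← Category.assoc, ← MonoidalCategory.whiskerLeft_comp, hs, q_adj]

private theorem whisker_section (P : Parity H) {X Y : C} (g : X ⟶ Y) (T : C)
    (hT : P.ev T = 𝟙 _) (r : H.obj Y ⟶ H.obj X) (hr : H.map g ≫ r = 𝟙 _ - P.ev X) :
    ∃ R : H.obj (Y ⊗ T) ⟶ H.obj (X ⊗ T), H.map (g ▷ T) ≫ R = 𝟙 _ - P.ev (X ⊗ T) := by
  refine ⟨Functor.OplaxMonoidal.δ H Y T ≫ r ▷ H.obj T ≫ Functor.LaxMonoidal.μ H X T, ?_⟩
  have h1 : Functor.LaxMonoidal.μ H X T ≫ (𝟙 _ - P.ev (X ⊗ T)) =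
      (𝟙 _ - P.ev X) ▷ H.obj T ≫ Functor.LaxMonoidal.μ H X T := by
    rw [Preadditive.comp_sub, P.tensor, hT, sub_self, Category.comp_id]
    have h2 : (𝟙 _ - P.ev X) ⊗ₘ (0 : H.obj T ⟶ H.obj T) = 0 :=
      MonoidalPreadditive.tensor_zero _
    rw [h2, add_zero, tensorHom_id]
    have h3 : (𝟙 _ - P.ev X) ▷ H.obj T = 𝟙 _ - P.ev X ▷ H.obj T := by
      rw [sub_eq_add_neg, MonoidalPreadditive.add_whiskerRight, id_whiskerRight, sub_eq_add_neg]
      congr 1
      rw [eq_neg_iff_add_eq_zero, ← MonoidalPreadditive.add_whiskerRight, neg_add_cancel,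
        MonoidalPreadditive.zero_whiskerRight]
    rw [h3, Preadditive.sub_comp, Category.id_comp]
  rw [Functor.Monoidal.map_whiskerRight]
  simp only [Category.assoc, Functor.Monoidal.μ_δ_assoc]
  rw [← comp_whiskerRight_assoc, hr, ← h1, Functor.Monoidal.δ_μ_assoc]

/-- `C⁺` for `X` if the odd part of the cohomology comes from `⟨B⟩` -/
theorem cplus_of_odd [Preadditive C] [HasBinaryBiproducts C] [RightRigidCategory C] [H.Additive]
    [H.Faithful] (P : Parity H) (B X T : C) [FiniteDimensional F (H.obj X)]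
    (reg : ∀ M M' : C, Thick B M → Thick B M' → ∀ f : M ⟶ M', ∃ g : M' ⟶ M, f ≫ g ≫ f = f)
    (hB : CPlus P B) (hT : Thick B T) (hTe : P.ev T = 𝟙 _) (D : X ≅ Xᘁ ⊗ T)
    (hodd : LinearMap.range (𝟙 _ - P.ev X : H.obj X ⟶ H.obj X).hom ≤ fromB H B X) :
    CPlus P X := by
  obtain ⟨M, hM, f₀, hf₀⟩ := exists_range (H := H) B X
  obtain ⟨e, he⟩ := thick_cplus P hB hM
  -- the odd part of `f₀`
  have hf : H.map ((𝟙 M - e) ≫ f₀) = H.map f₀ ≫ (𝟙 _ - P.ev X) := by
    rw [H.map_comp, H.map_sub, H.map_id, he, q_nat]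
  set f : M ⟶ X := (𝟙 M - e) ≫ f₀ with hfdef
  have hfq : H.map f ≫ (𝟙 _ - P.ev X) = H.map f := by
    rw [hf, Category.assoc, q_idem]
  -- a section
  obtain ⟨s, hs⟩ : ∃ s : H.obj X ⟶ H.obj M, s ≫ H.map f = 𝟙 _ - P.ev X := by
    have h1 : ∀ x : H.obj X, (𝟙 _ - P.ev X : H.obj X ⟶ H.obj X).hom x ∈
        LinearMap.range (H.map f).hom := by
      intro x
      obtain ⟨m, hm⟩ := hf₀ (hodd ⟨x, rfl⟩)
      refine ⟨m, ?_⟩
      rw [hf, ModuleCat.hom_comp, LinearMap.comp_apply, hm]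
      have h2 := congrArg (fun g => g.hom x) (q_idem P X)
      rw [ModuleCat.hom_comp] at h2
      exact h2
    obtain ⟨l, hl⟩ := (H.map f).hom.rangeRestrict.exists_rightInverse_of_surjective
      (LinearMap.range_rangeRestrict _)
    refine ⟨ModuleCat.ofHom (l ∘ₗ ((𝟙 _ - P.ev X : H.obj X ⟶ H.obj X).hom.codRestrict _ h1)), ?_⟩
    ext x
    have h3 := LinearMap.congr_fun hl
      ((𝟙 _ - P.ev X : H.obj X ⟶ H.obj X).hom.codRestrict _ h1 x)
    have h4 := congrArg Subtype.val h3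
    exact h4
  obtain ⟨r, hr⟩ := dual_section P f s hs
  obtain ⟨R, hR⟩ := whisker_section P (fᘁ) T hTe r hr
  obtain ⟨g, hgR⟩ : ∃ g : X ⟶ Mᘁ ⊗ T, H.map g ≫ R ≫ H.map D.inv = 𝟙 _ - P.ev X := by
    refine ⟨D.hom ≫ (fᘁ) ▷ T, ?_⟩
    rw [H.map_comp, Category.assoc, ← Category.assoc (H.map ((fᘁ) ▷ T)), hR, ← q_nat,
      ← Category.assoc, ← H.map_comp, D.hom_inv_id, H.map_id, Category.id_comp]
  obtain ⟨k, hk⟩ := reg M (Mᘁ ⊗ T) hM (Thick.tensor _ _ (Thick.dual M hM) hT) (f ≫ g)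
  refine ⟨𝟙 X - g ≫ k ≫ f, ?_⟩
  -- the odd projector
  have h1 : H.map f ≫ H.map (g ≫ k ≫ f) ≫ H.map g = H.map f ≫ H.map g := by
    rw [← H.map_comp, ← H.map_comp, ← H.map_comp]
    congr 1
    simpa only [Category.assoc] using hk
  have h2 : H.map f ≫ H.map (g ≫ k ≫ f) = H.map f := by
    have h3 := congrArg (fun h => h ≫ R ≫ H.map D.inv) h1
    simp only [Category.assoc] at h3
    rw [hgR, hfq] at h3
    have h4 : H.map (g ≫ k ≫ f) ≫ (𝟙 _ - P.ev X) = H.map (g ≫ k ≫ f) := by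
      rw [H.map_comp, H.map_comp, Category.assoc, Category.assoc, hfq]
    rw [h4] at h3
    exact h3
  have h5 : (𝟙 _ - P.ev X) ≫ H.map (g ≫ k ≫ f) = 𝟙 _ - P.ev X := by
    rw [← hs, Category.assoc, h2]
  have h6 : H.map (g ≫ k ≫ f) = 𝟙 _ - P.ev X := by
    rw [← h5, ← q_nat, H.map_comp, H.map_comp, Category.assoc, Category.assoc, hfq]
  rw [H.map_sub, H.map_id, h6, sub_sub_cancel]

end Odd

end Pool.Agent.KMN
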