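import Pool.Agent.KMN.FiltB

/-!
# KMN-VertS: the operators `vert` and the filtration

Plan. `js` a list of positive natural numbers, `vert (js.map fun j => d * j) γ`.
`vert_pos_mem`: induction on `js` (for all `γ`, `v`): `vert (l :: ls) γ = ∑ K, q l (ee K) * vert ls _`,
`q_pos_ee`, the induction hypothesis, then `an_mem` (size `- j`) or, for `j = 1`, `K = univ`,
`an_univ_mem` (size unchanged, `count 1` grows by one); `Submodule.sum_mem`, `U_mono`.
`vert_ones`: induction on `t`: in `∑ K` the terms `K ≠ univ` are in `U (w - (t+1)) (s - 1)` by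
`vert_pos_mem` for `replicate t 1` (size `≤ s`) and `an_mem`; for `K = univ`: `dual_univ`,
`ee_empty_wedge`, the induction hypothesis and `an_univ_mem`; `D ^ (t+1) = D * D ^ t`.
`vert_mem`: induction on `is` with `q_neg_ee`, `cr_mem`; base case `vert_pos_mem`.
-/

namespace Pool.Agent.KMN

variable {F : Type*} [Field F]

private theorem vs_cons (l : ℤ) (ls : List ℤ) (γ : Coh F) (v : Fock F) :
    vert (l :: ls) γ v = ∑ K, q l (ee K) (vert ls (wedge (dual K) γ) v) := by
  show (∑ K, q l (ee K) * vert ls (wedge (dual K) γ) : Module.End F (Fock F)) v = _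
  rw [LinearMap.sum_apply]
  rfl

private theorem vs_nil (γ : Coh F) (v : Fock F) : vert [] γ v = integral γ • v := rfl

theorem vert_pos_mem (d : ℕ) (js : List ℕ) (hjs : ∀ j ∈ js, 0 < j) (γ : Coh F) (w s : ℤ)
    (v : Fock F) (hv : v ∈ U F d w s) :
    vert (js.map fun j => ((d * j : ℕ) : ℤ)) γ v ∈
      U F d (w - js.sum) (s - js.sum + js.count 1) := by
  induction js generalizing γ with
  | nil =>
    rw [List.map_nil, vs_nil]
    refine Submodule.smul_mem _ _ ?_
    simpa using hv
  | cons j js ih =>
    have hj : 0 < j := hjs j List.mem_cons_self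
    have hjs' : ∀ i ∈ js, 0 < i := fun i hi => hjs i (List.mem_cons_of_mem _ hi)
    rw [List.map_cons, vs_cons]
    refine Submodule.sum_mem _ fun K _ => ?_
    rw [q_pos_ee]
    have h1 := ih hjs' (wedge (dual K) γ)
    have e1 : w - ((j :: js).sum : ℕ) = w - (js.sum : ℕ) - j := by
      rw [List.sum_cons]
      push_cast
      ring
    rw [e1]
    by_cases hc : j = 1 ∧ K = Finset.univ
    · obtain ⟨rfl, rfl⟩ := hc
      have h2 := an_univ_mem d _ _ _ h1
      refine U_mono d _ ?_ h2
      rw [List.sum_cons, List.count_cons_self]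
      push_cast
      omega
    · have h2 := an_mem d j hj K hc _ _ _ h1
      refine U_mono d _ ?_ h2
      have h3 : js.count 1 ≤ (j :: js).count 1 := List.count_le_count_cons
      rw [List.sum_cons]
      push_cast
      omega

theorem vert_ones (d t : ℕ) (γ : Coh F) (w s : ℤ) (v : Fock F) (hv : v ∈ U F d w s) :
    vert ((List.replicate t 1).map fun j => ((d * j : ℕ) : ℤ)) γ v -
      integral γ • ((an (d * 1) Finset.univ : Module.End F (Fock F)) ^ t) v ∈
      U F d (w - t) (s - 1) := by
  induction t generalizing γ with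
  | zero =>
    rw [List.replicate_zero, List.map_nil, vs_nil, pow_zero, Module.End.one_apply, sub_self]
    exact Submodule.zero_mem _
  | succ t ih =>
    rw [List.replicate_succ, List.map_cons, vs_cons, ← Finset.add_sum_erase _ _ (Finset.mem_univ
      (Finset.univ : Finset (Fin 4))), dual_univ, ee_empty_wedge, q_pos_ee, pow_succ',
      Module.End.mul_apply]
    have e1 : w - ((t + 1 : ℕ) : ℤ) = w - (t : ℤ) - 1 := by
      push_cast
      ring
    rw [e1, add_sub_right_comm, ← LinearMap.map_smul, ← map_sub]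
    refine Submodule.add_mem _ (an_univ_mem d _ _ _ (ih γ)) (Submodule.sum_mem _ fun K hK => ?_)
    have hK' : K ≠ Finset.univ := Finset.ne_of_mem_erase hK
    rw [q_pos_ee]
    have h1 := vert_pos_mem d (List.replicate t 1)
      (fun j hj => by rw [List.eq_of_mem_replicate hj]; exact Nat.one_pos)
      (wedge (dual K) γ) w s v hv
    have h2 := an_mem d 1 Nat.one_pos K (fun h => hK' h.2) _ _ _ h1
    have e2 : (List.replicate t 1).sum = t := by simp
    have e3 : (List.replicate t 1).count 1 = t := by simp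
    rw [e2, e3] at h2
    have e4 : s - (t : ℤ) + (t : ℤ) - ((1 : ℕ) : ℤ) = s - 1 := by
      push_cast
      ring
    rw [e4] at h2
    exact_mod_cast h2

theorem vert_mem (d : ℕ) (hd : 0 < d) (is js : List ℕ) (his : ∀ i ∈ is, 0 < i)
    (hjs : ∀ j ∈ js, 0 < j) (γ : Coh F) (w s : ℤ) (v : Fock F) (hv : v ∈ U F d w s) :
    vert ((is.map fun i => -((d * i : ℕ) : ℤ)) ++ js.map fun j => ((d * j : ℕ) : ℤ)) γ v ∈
      U F d (w + is.sum - js.sum) (s + is.sum - js.sum + js.count 1) := by
  induction is generalizing γ with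
  | nil =>
    rw [List.map_nil, List.nil_append]
    have h := vert_pos_mem d js hjs γ w s v hv
    have e1 : w + (([] : List ℕ).sum : ℕ) - (js.sum : ℕ) = w - (js.sum : ℕ) := by simp
    have e2 : s + (([] : List ℕ).sum : ℕ) - (js.sum : ℕ) + (js.count 1 : ℕ) =
        s - (js.sum : ℕ) + (js.count 1 : ℕ) := by simp
    rw [e1, e2]
    exact h
  | cons i is ih =>
    have hi : 0 < i := his i List.mem_cons_self
    have his' : ∀ k ∈ is, 0 < k := fun k hk => his k (List.mem_cons_of_mem _ hk)
    rw [List.map_cons, List.cons_append, vs_cons]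
    refine Submodule.sum_mem _ fun K _ => ?_
    rw [q_neg_ee _ (Nat.mul_pos hd hi)]
    have h2 := cr_mem d i hi K _ _ _ (ih his' (wedge (dual K) γ))
    have e1 : w + ((i :: is).sum : ℕ) - (js.sum : ℕ) = w + (is.sum : ℕ) - (js.sum : ℕ) + i := by
      rw [List.sum_cons]
      push_cast
      ring
    have e2 : s + ((i :: is).sum : ℕ) - (js.sum : ℕ) + (js.count 1 : ℕ) =
        s + (is.sum : ℕ) - (js.sum : ℕ) + (js.count 1 : ℕ) + i := by
      rw [List.sum_cons]
      push_cast
      ring
    rw [e1, e2]
    exact h2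

end Pool.Agent.KMN
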